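import Mathlib

set_option autoImplicit false

namespace Pool.Agent.Lib.MP_c88ce3_co

open Finset

variable {V C : Type}

/-- One step along either of two matchings. -/
def Step (f g : V → V) (x y : V) : Prop := y = f x ∨ y = g x

/-- Connectivity in the union of two matchings. -/
def Conn (f g : V → V) : V → V → Prop := Relation.ReflTransGen (Step f g)

lemma Conn.refl (f g : V → V) (x : V) : Conn f g x x := Relation.ReflTransGen.refl

lemma Conn.trans {f g : V → V} {x y z : V} (h1 : Conn f g x y) (h2 : Conn f g y z) :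
    Conn f g x z := Relation.ReflTransGen.trans h1 h2

lemma Conn.left (f g : V → V) (x : V) : Conn f g x (f x) :=
  Relation.ReflTransGen.single (Or.inl rfl)

lemma Conn.right (f g : V → V) (x : V) : Conn f g x (g x) :=
  Relation.ReflTransGen.single (Or.inr rfl)

lemma Conn.swap {f g : V → V} {x y : V} (h : Conn f g x y) : Conn g f x y := by
  induction h with
  | refl => exact Conn.refl _ _ _
  | tail _ hs ih => exact Relation.ReflTransGen.tail ih (Or.symm hs)

lemma Conn.symm {f g : V → V} (hf : ∀ x, f (f x) = x) (hg : ∀ x, g (g x) = x) {x y : V}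
    (h : Conn f g x y) : Conn f g y x := by
  induction h with
  | refl => exact Conn.refl _ _ _
  | tail _ hs ih =>
    refine Conn.trans ?_ ih
    rcases hs with rfl | rfl
    · exact Relation.ReflTransGen.single (Or.inl (hf _).symm)
    · exact Relation.ReflTransGen.single (Or.inr (hg _).symm)

/-- Simulation of connectivity inside an invariant set. -/
lemma Conn.sim {W : Type} {f g : V → V} {f' g' : W → W} (φ : V → W) (S : V → Prop)
    (hS : ∀ x, S x → S (f x) ∧ S (g x))
    (h1 : ∀ x, S x → Conn f' g' (φ x) (φ (f x))) (h2 : ∀ x, S x → Conn f' g' (φ x) (φ (g x)))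
    {x y : V} (hx : S x) (h : Conn f g x y) : S y ∧ Conn f' g' (φ x) (φ y) := by
  induction h with
  | refl => exact ⟨hx, Conn.refl _ _ _⟩
  | tail _ hs ih =>
    rcases hs with rfl | rfl
    · exact ⟨(hS _ ih.1).1, ih.2.trans (h1 _ ih.1)⟩
    · exact ⟨(hS _ ih.1).2, ih.2.trans (h2 _ ih.1)⟩

lemma even_card_of_invol [DecidableEq V] (s : Finset V) (f : V → V) (hf : ∀ x, f (f x) = x)
    (hne : ∀ x, f x ≠ x) (hs : ∀ x ∈ s, f x ∈ s) : (s.card : ZMod 2) = 0 := by
  have := Finset.sum_involution (s := s) (f := fun _ => (1 : ZMod 2)) (fun a _ => f a)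
    (fun _ _ => by decide) (fun a _ _ => hne a) (fun a ha => hs a ha) (fun a _ => hf a)
  simpa using this

/-- An edge of a cycle is not a bridge. -/
lemma no_bridge [Fintype V] (f g : V → V) (hf : ∀ x, f (f x) = x) (hg : ∀ x, g (g x) = x)
    (hf' : ∀ x, f x ≠ x) (hg' : ∀ x, g x ≠ x) (A : V) :
    Relation.ReflTransGen (fun x y => y = g x ∨ (y = f x ∧ x ≠ A ∧ x ≠ f A)) A (f A) := by
  classical
  by_contra hB
  set R := univ.filter (fun x =>
    Relation.ReflTransGen (fun x y => y = g x ∨ (y = f x ∧ x ≠ A ∧ x ≠ f A)) A x) with hR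
  have hA : A ∈ R := by simp only [hR, mem_filter, mem_univ, true_and]; exact .refl
  have h1 := even_card_of_invol R g hg hg' (fun x hx => by
    simp only [hR, mem_filter, mem_univ, true_and] at hx ⊢
    exact hx.tail (Or.inl rfl))
  have h2 := even_card_of_invol (R.erase A) f hf hf' (fun x hx => by
    simp only [hR, mem_erase, mem_filter, mem_univ, true_and] at hx ⊢
    have hxB : x ≠ f A := fun e => hB (e ▸ hx.2)
    refine ⟨fun e => hxB ?_, hx.2.tail (Or.inr ⟨rfl, hx.1, hxB⟩)⟩
    rw [← e, hf])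
  have h3 : R.card = (R.erase A).card + 1 := (card_erase_add_one hA).symm
  rw [h3] at h1
  push_cast at h1
  rw [h2] at h1
  exact absurd h1 (by decide)

/-- A proper edge colouring of a regular graph, as a family of involutions. -/
structure Fac (adj : V → V → Prop) (m : C → V → V) : Prop where
  inv : ∀ k x, m k (m k x) = x
  adj : ∀ k x, adj x (m k x)
  ne : ∀ k x, m k x ≠ x
  inj : ∀ x k l, m k x = m l x → k = l

/-- A family of vertex-disjoint two-coloured squares. -/
structure Sys (m : C → V → V) (I : Type) where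
  P : I → V
  α : I → C
  β : I → C
  comm : ∀ ι, m (α ι) (m (β ι) (P ι)) = m (β ι) (m (α ι) (P ι))
  disj : ∀ ι ι' x, (x = P ι ∨ x = m (α ι) (P ι) ∨ x = m (β ι) (P ι) ∨
      x = m (α ι) (m (β ι) (P ι))) → (x = P ι' ∨ x = m (α ι') (P ι') ∨ x = m (β ι') (P ι') ∨
      x = m (α ι') (m (β ι') (P ι'))) → ι = ι'

namespace Sys

variable {m : C → V → V} {I : Type} (S : Sys m I)

/-- The vertices of a square. -/
def Sq (ι : I) (x : V) : Prop := x = S.P ι ∨ x = m (S.α ι) (S.P ι) ∨ x = m (S.β ι) (S.P ι) ∨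
  x = m (S.α ι) (m (S.β ι) (S.P ι))

open Classical in
/-- The permutation of colours at a vertex. -/
noncomputable def sw (x : V) : Equiv.Perm C :=
  if h : ∃ ι, S.Sq ι x then Equiv.swap (S.α h.choose) (S.β h.choose) else 1

/-- The colouring after switching all squares. -/
noncomputable def new (k : C) (x : V) : V := m (S.sw x k) x

open Classical in
lemma sw_of {ι : I} {x : V} (h : S.Sq ι x) : S.sw x = Equiv.swap (S.α ι) (S.β ι) := by
  have h' : ∃ ι, S.Sq ι x := ⟨ι, h⟩
  have : h'.choose = ι := S.disj _ _ x h'.choose_spec h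
  unfold sw
  rw [dif_pos h', this]

lemma sw_fix {x : V} {k : C} (h : ∀ ι, S.Sq ι x → k ≠ S.α ι ∧ k ≠ S.β ι) : S.sw x k = k := by
  classical
  by_cases h' : ∃ ι, S.Sq ι x
  · obtain ⟨ι, hι⟩ := h'
    rw [S.sw_of hι]
    convert Equiv.swap_apply_of_ne_of_ne (h ι hι).1 (h ι hι).2
  · unfold sw
    rw [dif_neg h']; rfl

lemma sq_α (hm : ∀ k x, m k (m k x) = x) {ι : I} {x : V} (h : S.Sq ι x) :
    S.Sq ι (m (S.α ι) x) := by
  rcases h with rfl | rfl | rfl | rfl
  · exact Or.inr (Or.inl rfl)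
  · exact Or.inl (hm _ _)
  · exact Or.inr (Or.inr (Or.inr rfl))
  · exact Or.inr (Or.inr (Or.inl (hm _ _)))

lemma sq_β (hm : ∀ k x, m k (m k x) = x) {ι : I} {x : V} (h : S.Sq ι x) :
    S.Sq ι (m (S.β ι) x) := by
  rcases h with rfl | rfl | rfl | rfl
  · exact Or.inr (Or.inr (Or.inl rfl))
  · exact Or.inr (Or.inr (Or.inr (S.comm ι).symm))
  · exact Or.inl (hm _ _)
  · rw [S.comm ι, hm]; exact Or.inr (Or.inl rfl)

lemma new_α {ι : I} {x : V} (h : S.Sq ι x) : S.new (S.α ι) x = m (S.β ι) x := by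
  classical
  unfold new
  rw [S.sw_of h]
  congr 1
  convert Equiv.swap_apply_left _ _

lemma new_β {ι : I} {x : V} (h : S.Sq ι x) : S.new (S.β ι) x = m (S.α ι) x := by
  classical
  unfold new
  rw [S.sw_of h]
  congr 1
  convert Equiv.swap_apply_right _ _

lemma new_fix {x : V} {k : C} (h : ∀ ι, S.Sq ι x → k ≠ S.α ι ∧ k ≠ S.β ι) :
    S.new k x = m k x := by
  unfold new; rw [S.sw_fix h]

lemma fac {adj : V → V → Prop} (hm : Fac adj m) : Fac adj S.new := by
  refine ⟨fun k x => ?_, fun k x => hm.adj _ _, fun k x => hm.ne _ _,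
    fun x k l h => (S.sw x).injective (hm.inj x _ _ h)⟩
  by_cases h : ∀ ι, S.Sq ι x → k ≠ S.α ι ∧ k ≠ S.β ι
  · rw [S.new_fix h, S.new_fix, hm.inv]
    intro ι hι
    constructor
    · rintro rfl
      have := S.sq_α hm.inv hι
      rw [hm.inv] at this
      exact (h ι this).1 rfl
    · rintro rfl
      have := S.sq_β hm.inv hι
      rw [hm.inv] at this
      exact (h ι this).2 rfl
  · push Not at h
    obtain ⟨ι, hι, hk⟩ := h
    by_cases hα : k = S.α ι
    · subst hα
      rw [S.new_α hι, S.new_α (S.sq_β hm.inv hι), hm.inv]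
    · have hβ := hk hα
      subst hβ
      rw [S.new_β hι, S.new_β (S.sq_α hm.inv hι), hm.inv]

/-- A square is active for the pair `i, j` if it touches a node and uses one of the colours. -/
def Active {N : Type} (node : V → N) (𝒩 : N → Prop) (i j : C) (ι : I) : Prop :=
  (∃ x, S.Sq ι x ∧ 𝒩 (node x)) ∧ (S.α ι = i ∨ S.α ι = j ∨ S.β ι = i ∨ S.β ι = j)

/-- Merging cycles along a tree of switches. -/
theorem tree [Fintype V] {adj : V → V → Prop} (hm : Fac adj m) {N : Type} (node : V → N)
    (𝒩 : N → Prop) (rk : N → ℕ) (ρ : N) {i j : C} (hij : i ≠ j)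
    (H0 : ∀ x, 𝒩 (node x) → node (m i x) = node x ∧ node (m j x) = node x)
    (H1 : ∀ x y, 𝒩 (node x) → node x = node y → Conn (m i) (m j) x y)
    (H2 : ∀ ι, S.Active node 𝒩 i j ι → (S.α ι = i ∨ S.α ι = j) ∧ S.β ι ≠ i ∧ S.β ι ≠ j ∧
      𝒩 (node (S.P ι)) ∧ 𝒩 (node (m (S.β ι) (S.P ι))) ∧
      rk (node (m (S.β ι) (S.P ι))) < rk (node (S.P ι)))
    (H3 : ∀ ι ι', S.Active node 𝒩 i j ι → S.Active node 𝒩 i j ι' →
      node (S.P ι) = node (S.P ι') → ι = ι')
    (H4 : ∀ x, 𝒩 (node x) → node x ≠ ρ → ∃ ι, S.Active node 𝒩 i j ι ∧ node (S.P ι) = node x) :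
    (∀ x, 𝒩 (node x) → 𝒩 (node (S.new i x)) ∧ 𝒩 (node (S.new j x))) ∧
    ∀ x y, 𝒩 (node x) → 𝒩 (node y) → Conn (S.new i) (S.new j) x y := by
  classical
  have hn := S.fac hm
  have csymm : ∀ {x y}, Conn (S.new i) (S.new j) x y → Conn (S.new i) (S.new j) y x :=
    fun h => h.symm (hn.inv i) (hn.inv j)
  have H0' : ∀ k, (k = i ∨ k = j) → ∀ x, 𝒩 (node x) → node (m k x) = node x := by
    rintro k (rfl | rfl) x hx
    · exact (H0 x hx).1
    · exact (H0 x hx).2
  have cstep : ∀ k, (k = i ∨ k = j) → ∀ x, Conn (S.new i) (S.new j) x (S.new k x) := by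
    rintro k (rfl | rfl) x
    · exact Conn.left _ _ _
    · exact Conn.right _ _ _
  have sqN : ∀ ι, S.Active node 𝒩 i j ι → ∀ x, S.Sq ι x → 𝒩 (node x) := by
    intro ι hι x hx
    obtain ⟨ha, -, -, h1, h2, -⟩ := H2 ι hι
    rcases hx with rfl | rfl | rfl | rfl
    · exact h1
    · rw [H0' _ ha _ h1]; exact h1
    · exact h2
    · rw [H0' _ ha _ h2]; exact h2
  -- classification of a base step
  have cls : ∀ k, (k = i ∨ k = j) → ∀ x, 𝒩 (node x) → S.new k x = m k x ∨
      ∃ ι, S.Active node 𝒩 i j ι ∧ S.Sq ι x ∧ k = S.α ι := by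
    intro k hk x hx
    by_cases h : ∀ ι, S.Sq ι x → k ≠ S.α ι ∧ k ≠ S.β ι
    · exact Or.inl (S.new_fix h)
    · push Not at h
      obtain ⟨ι, hι, hk'⟩ := h
      have hact : S.Active node 𝒩 i j ι := by
        refine ⟨⟨x, hι, hx⟩, ?_⟩
        by_cases hα : k = S.α ι
        · rcases hk with rfl | rfl
          · exact Or.inl hα.symm
          · exact Or.inr (Or.inl hα.symm)
        · have hβ := hk' hα
          rcases hk with rfl | rfl
          · exact Or.inr (Or.inr (Or.inl hβ.symm))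
          · exact Or.inr (Or.inr (Or.inr hβ.symm))
      refine Or.inr ⟨ι, hact, hι, ?_⟩
      by_contra hα
      have hβ := hk' hα
      obtain ⟨-, h1, h2, -⟩ := H2 ι hact
      rcases hk with rfl | rfl
      · exact h1 hβ.symm
      · exact h2 hβ.symm
  refine ⟨fun x hx => ?_, ?_⟩
  · have : ∀ k, (k = i ∨ k = j) → 𝒩 (node (S.new k x)) := by
      intro k hk
      rcases cls k hk x hx with h | ⟨ι, hι, hs, rfl⟩
      · rw [h, H0' k hk x hx]; exact hx
      · rw [S.new_α hs]; exact sqN ι hι _ (S.sq_β hm.inv hs)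
    exact ⟨this i (Or.inl rfl), this j (Or.inr rfl)⟩
  obtain ⟨K, hK⟩ : ∃ K, ∀ x, rk (node x) ≤ K :=
    ⟨univ.sup (fun x => rk (node x)), fun x => le_sup (f := fun x => rk (node x)) (mem_univ x)⟩
  have claim : ∀ n, ∀ x y, 𝒩 (node x) → node x = node y → K - rk (node x) = n →
      Conn (S.new i) (S.new j) x y := by
    intro n
    induction n using Nat.strong_induction_on with
    | _ n ih =>
      intro x0 y0 hx0 hxy hn0
      -- every base step is simulated, except possibly the own switch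
      have sim : ∀ k, (k = i ∨ k = j) → ∀ x, node x = node x0 →
          Conn (S.new i) (S.new j) x (m k x) ∨ ∃ ι, S.Active node 𝒩 i j ι ∧ k = S.α ι ∧
            node (S.P ι) = node x0 ∧ (x = S.P ι ∨ x = m (S.α ι) (S.P ι)) := by
        intro k hk x hx
        rcases cls k hk x (hx ▸ hx0) with h | ⟨ι, hι, hs, rfl⟩
        · exact Or.inl (h ▸ cstep k hk x)
        obtain ⟨ha, -, -, h1, h2, h3⟩ := H2 ι hι
        have hchild : node (m (S.β ι) (S.P ι)) = node x0 →
            Conn (S.new i) (S.new j) (m (S.β ι) (S.P ι)) (m (S.α ι) (m (S.β ι) (S.P ι))) := by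
          intro e
          have hAB : Conn (S.new i) (S.new j) (S.P ι) (m (S.α ι) (S.P ι)) := by
            refine ih (K - rk (node (S.P ι))) ?_ _ _ h1 (H0' _ ha _ h1).symm rfl
            have := hK (S.P ι)
            rw [e] at h3
            omega
          have e1 := cstep _ ha (S.P ι)
          rw [S.new_α (Or.inl rfl)] at e1
          have e2 := cstep _ ha (m (S.α ι) (S.P ι))
          rw [S.new_α (Or.inr (Or.inl rfl)), ← S.comm] at e2
          exact (csymm e1).trans (hAB.trans e2)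
        rcases hs with rfl | rfl | rfl | rfl
        · exact Or.inr ⟨ι, hι, rfl, hx, Or.inl rfl⟩
        · exact Or.inr ⟨ι, hι, rfl, (H0' _ ha _ h1).symm.trans hx, Or.inr rfl⟩
        · exact Or.inl (hchild hx)
        · left
          rw [hm.inv]
          exact csymm (hchild ((H0' _ ha _ h2).symm.trans hx))
      have own : ∀ ι, S.Active node 𝒩 i j ι → node (S.P ι) = node x0 →
          Conn (S.new i) (S.new j) (S.P ι) (m (S.α ι) (S.P ι)) := by
        intro ι hι he
        obtain ⟨ha, -, -, h1, -, -⟩ := H2 ι hι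
        obtain ⟨δ, hδ, hδα⟩ : ∃ δ, (δ = i ∨ δ = j) ∧ δ ≠ S.α ι := by
          rcases ha with ha | ha
          · exact ⟨j, Or.inr rfl, ha ▸ hij.symm⟩
          · exact ⟨i, Or.inl rfl, ha ▸ hij⟩
        have hb := no_bridge (m (S.α ι)) (m δ) (hm.inv _) (hm.inv _) (hm.ne _) (hm.ne _) (S.P ι)
        have key : ∀ z, Relation.ReflTransGen (fun x y => y = m δ x ∨
            (y = m (S.α ι) x ∧ x ≠ S.P ι ∧ x ≠ m (S.α ι) (S.P ι))) (S.P ι) z →
            node z = node x0 ∧ Conn (S.new i) (S.new j) (S.P ι) z := by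
          intro z hz
          induction hz with
          | refl => exact ⟨he, Conn.refl _ _ _⟩
          | tail _ hs ih2 =>
            rcases hs with rfl | ⟨rfl, hz1, hz2⟩
            · refine ⟨(H0' _ hδ _ (ih2.1 ▸ hx0)).trans ih2.1, ih2.2.trans ?_⟩
              rcases sim δ hδ _ ih2.1 with h | ⟨ι', hι', e1, e2, -⟩
              · exact h
              · have := H3 ι' ι hι' hι (e2.trans he.symm)
                subst this
                exact absurd e1 hδα
            · refine ⟨(H0' _ ha _ (ih2.1 ▸ hx0)).trans ih2.1, ih2.2.trans ?_⟩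
              rcases sim _ ha _ ih2.1 with h | ⟨ι', hι', -, e2, e3⟩
              · exact h
              · have := H3 ι' ι hι' hι (e2.trans he.symm)
                subst this
                rcases e3 with e3 | e3
                · exact absurd e3 hz1
                · exact absurd e3 hz2
        exact (key _ hb).2
      have sim' : ∀ k, (k = i ∨ k = j) → ∀ x, node x = node x0 →
          Conn (S.new i) (S.new j) x (m k x) := by
        intro k hk x hx
        rcases sim k hk x hx with h | ⟨ι, hι, rfl, e2, rfl | rfl⟩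
        · exact h
        · exact own ι hι e2
        · rw [hm.inv]; exact csymm (own ι hι e2)
      exact (Conn.sim id (fun x => node x = node x0)
        (fun x hx => ⟨(H0 x (hx ▸ hx0)).1.trans hx, (H0 x (hx ▸ hx0)).2.trans hx⟩)
        (sim' i (Or.inl rfl)) (sim' j (Or.inr rfl)) rfl (H1 x0 y0 hx0 hxy)).2
  have up : ∀ n, ∀ x, 𝒩 (node x) → rk (node x) = n →
      ∃ z, node z = ρ ∧ 𝒩 (node z) ∧ Conn (S.new i) (S.new j) x z := by
    intro n
    induction n using Nat.strong_induction_on with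
    | _ n ih =>
      intro x hx hn0
      by_cases hρ : node x = ρ
      · exact ⟨x, hρ, hx, Conn.refl _ _ _⟩
      obtain ⟨ι, hι, he⟩ := H4 x hx hρ
      obtain ⟨ha, -, -, h1, h2, h3⟩ := H2 ι hι
      obtain ⟨z, hz1, hz2, hz3⟩ := ih _ (by rw [← hn0, ← he]; exact h3) _ h2 rfl
      refine ⟨z, hz1, hz2, (claim _ x _ hx he.symm rfl).trans (Conn.trans ?_ hz3)⟩
      have e1 := cstep _ ha (S.P ι)
      rwa [S.new_α (Or.inl rfl)] at e1
  intro x y hx hy
  obtain ⟨z, hz1, hz2, hz3⟩ := up _ x hx rfl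
  obtain ⟨z', hz1', -, hz3'⟩ := up _ y hy rfl
  exact hz3.trans ((claim _ z z' hz2 (hz1.trans hz1'.symm) rfl).trans (csymm hz3'))

end Sys

end Pool.Agent.Lib.MP_c88ce3_co
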