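import Mathlib

set_option autoImplicit false

namespace Pool.Agent.Lib.MP_c88ce3_co

/-- The hypercube graph: binary words of length `d`, adjacent when they differ in exactly one
coordinate. -/
def cube (d : ℕ) : SimpleGraph (Fin d → Bool) where
  Adj x y := hammingDist x y = 1
  symm := ⟨fun x y h => by rwa [hammingDist_comm]⟩
  loopless := ⟨fun x h => by simp at h⟩

end Pool.Agent.Lib.MP_c88ce3_co
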