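import Pool.Agent.Lib.MP_c88ce3_co.Torus

set_option autoImplicit false
set_option linter.unusedSectionVars false

namespace Pool.Agent.Lib.MP_c88ce3_co

open Finset

lemma Fac.cover' {ι V : Type} [Finite ι] (fl : ι → V → V) {m : ι → V → V}
    (h : Fac (fun x y => ∃ a, y = fl a x) m) (x : V) (a : ι) : ∃ k, m k x = fl a x := by
  choose d hd using fun k => h.adj k x
  have hi : Function.Injective d := fun k l e => h.inj x k l (by rw [hd k, hd l, e])
  obtain ⟨k, rfl⟩ := Finite.injective_iff_surjective.1 hi a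
  exact ⟨k, hd k⟩

/-- The origin of a cube. -/
def zer (ι : Type) : ι → Bool := fun _ => false

/-- Special points in a block. -/
structure Blk (L J : Type) [DecidableEq L] where
  D : (L → Bool) → Prop
  down : ∀ x a, D x → x a = true → D (flip a x)
  zero : D (zer L)
  one : ∀ x, Adjc (zer L) x → D x
  pt : J → L → Bool
  nd : ∀ j x, (x = pt j ∨ Adjc (pt j) x) → ¬ D x
  inj : ∀ j j' x, (x = pt j ∨ Adjc (pt j) x) → (x = pt j' ∨ Adjc (pt j') x) → j = j'

/-- Special points in the extra block. -/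
structure Blk0 (B J : Type) [DecidableEq B] where
  D : (B → Bool) → Prop
  down : ∀ x a, D x → x a = true → D (flip a x)
  zero : D (zer B)
  pt : J → B → Bool
  t1 : B
  t2 : B
  h1 : ∀ j, pt j t1 = true
  h2 : ∀ j, pt j t2 = false
  nd : ∀ j, ¬ D (pt j)
  nd2 : ∀ j, ¬ D (flip t2 (pt j))
  d1 : ∀ j, D (flip t1 (pt j))
  inj : ∀ j j' y, (y = pt j ∨ y = flip t1 (pt j) ∨ y = flip t2 (pt j)) →
    (y = pt j' ∨ y = flip t1 (pt j') ∨ y = flip t2 (pt j')) → j = j'

section W

variable {B R L : Type} [Fintype B] [DecidableEq B] [Fintype R] [LinearOrder R]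
  [Fintype L] [DecidableEq L]

/-- Vertices of a fibre. -/
abbrev Wt (B R L : Type) := (B → Bool) × (R → L → Bool)

/-- Flip one coordinate of a fibre vertex. -/
def flipW : B ⊕ (R × L) → Wt B R L → Wt B R L
  | Sum.inl t, w => (flip t w.1, w.2)
  | Sum.inr a, w => (w.1, Function.update w.2 a.1 (flip a.2 (w.2 a.1)))

/-- Coordinates of a fibre vertex. -/
def val (w : Wt B R L) : B ⊕ (R × L) → Bool
  | Sum.inl t => w.1 t
  | Sum.inr a => w.2 a.1 a.2

lemma val_flipW (a : B ⊕ (R × L)) (w : Wt B R L) : val (flipW a w) = flip a (val w) := by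
  funext b
  rcases a with t | ⟨q, k⟩ <;> rcases b with t' | ⟨q', k'⟩
  · simp [flipW, val, flip_apply]
  · simp [flipW, val, flip_apply]
  · simp [flipW, val, flip_apply]
  · by_cases h : q' = q
    · subst h; simp [flipW, val, flip_apply]
    · simp [flipW, val, flip_apply, h]

lemma val_inj : Function.Injective (val : Wt B R L → _) := by
  intro w w' h
  refine Prod.ext (funext fun t => congrFun h (Sum.inl t))
    (funext fun q => funext fun k => congrFun h (Sum.inr (q, k)))

lemma flipW_flipW (a : B ⊕ (R × L)) (w : Wt B R L) : flipW a (flipW a w) = w :=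
  val_inj (by rw [val_flipW, val_flipW, flip_flip])

/-- Weight of a fibre vertex. -/
def wt (w : Wt B R L) : ℕ := (univ.filter (fun a => val w a = true)).card

lemma wt_flip {a : B ⊕ (R × L)} {w : Wt B R L} (h : val w a = true) : wt (flipW a w) < wt w := by
  unfold wt
  rw [val_flipW]
  refine card_lt_card ⟨fun b hb => ?_, fun hsub => ?_⟩
  · simp only [mem_filter, mem_univ, true_and, flip_apply] at hb ⊢
    by_cases e : b = a
    · rw [e, h]
    · rwa [if_neg e] at hb
  · have := hsub (mem_filter.2 ⟨mem_univ a, h⟩)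
    simp [flip_self, h] at this

/-- Put given points into two blocks. -/
def emb (r s : R) (ω : Wt B R L) (u v : L → Bool) : Wt B R L :=
  (ω.1, Function.update (Function.update ω.2 r u) s v)

/-- Erase two blocks. -/
def node (r s : R) (w : Wt B R L) : Wt B R L :=
  (w.1, fun q => if q = r ∨ q = s then zer L else w.2 q)

lemma emb_fst (r s : R) (ω : Wt B R L) (u v : L → Bool) : (emb r s ω u v).1 = ω.1 := rfl

lemma emb_r {r s : R} (h : r ≠ s) (ω : Wt B R L) (u v : L → Bool) : (emb r s ω u v).2 r = u := by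
  simp [emb, h]

lemma emb_s (r s : R) (ω : Wt B R L) (u v : L → Bool) : (emb r s ω u v).2 s = v := by
  simp [emb]

lemma emb_q {r s q : R} (h1 : q ≠ r) (h2 : q ≠ s) (ω : Wt B R L) (u v : L → Bool) :
    (emb r s ω u v).2 q = ω.2 q := by
  simp [emb, h1, h2]

lemma node_comm (r s : R) (w : Wt B R L) : node r s w = node s r w := by
  unfold node; simp only [or_comm]

lemma node_congr {r s : R} {w w' : Wt B R L} (h1 : w.1 = w'.1)
    (h2 : ∀ q, q ≠ r → q ≠ s → w.2 q = w'.2 q) : node r s w = node r s w' := by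
  unfold node
  refine Prod.ext h1 (funext fun q => ?_)
  by_cases h : q = r ∨ q = s
  · simp [h]
  · simp only [if_neg h]; push Not at h; exact h2 q h.1 h.2

lemma node_emb (r s : R) (ω : Wt B R L) (u v : L → Bool) :
    node r s (emb r s ω u v) = node r s ω :=
  node_congr rfl (fun _ h1 h2 => emb_q h1 h2 ω u v)

lemma node_q {r s q : R} (h1 : q ≠ r) (h2 : q ≠ s) (w : Wt B R L) : (node r s w).2 q = w.2 q := by
  simp [node, h1, h2]

lemma node_r (r s : R) (w : Wt B R L) : (node r s w).2 r = zer L := by simp [node]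

lemma node_s (r s : R) (w : Wt B R L) : (node r s w).2 s = zer L := by simp [node]

lemma node_self {r s : R} {ω : Wt B R L} (h1 : ω.2 r = zer L) (h2 : ω.2 s = zer L) :
    node r s ω = ω := by
  refine Prod.ext rfl (funext fun q => ?_)
  by_cases hr : q = r
  · subst hr; rw [node_r, h1]
  · by_cases hs : q = s
    · subst hs; rw [node_s, h2]
    · exact node_q hr hs ω

lemma emb_node {r s : R} (h : r ≠ s) (w : Wt B R L) :
    emb r s (node r s w) (w.2 r) (w.2 s) = w := by
  refine Prod.ext rfl (funext fun q => ?_)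
  by_cases hr : q = r
  · subst hr; exact emb_r h _ _ _
  · by_cases hs : q = s
    · subst hs; exact emb_s _ _ _ _ _
    · rw [emb_q hr hs, node_q hr hs]

lemma update_emb_r {r s : R} (h : r ≠ s) (ω : Wt B R L) (u v u' : L → Bool) :
    Function.update (emb r s ω u v).2 r u' = (emb r s ω u' v).2 := by
  funext q
  by_cases hr : q = r
  · subst hr; rw [Function.update_self, emb_r h]
  · rw [Function.update_of_ne hr]
    by_cases hs : q = s
    · subst hs; rw [emb_s, emb_s]
    · rw [emb_q hr hs, emb_q hr hs]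

lemma update_emb_s (r s : R) (ω : Wt B R L) (u v v' : L → Bool) :
    Function.update (emb r s ω u v).2 s v' = (emb r s ω u v').2 := by
  simp [emb]

/-- A direction outside two blocks. -/
def Out (r s : R) (a : B ⊕ (R × L)) : Prop := ∀ b, a = Sum.inr b → b.1 ≠ r ∧ b.1 ≠ s

lemma flipW_emb {r s : R} {a : B ⊕ (R × L)} (ha : Out r s a) (ω : Wt B R L) (u v : L → Bool) :
    flipW a (emb r s ω u v) = emb r s (flipW a ω) u v := by
  rcases a with t | b
  · rfl
  · obtain ⟨h1, h2⟩ := ha b rfl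
    refine Prod.ext rfl ?_
    simp only [flipW, emb_q h1 h2]
    simp only [emb]
    rw [Function.update_comm h2.symm, Function.update_comm h1.symm]

lemma flipW_snd {a : B ⊕ (R × L)} {q : R} (ha : ∀ b, a = Sum.inr b → b.1 ≠ q) (ω : Wt B R L) :
    (flipW a ω).2 q = ω.2 q := by
  rcases a with t | b
  · rfl
  · simp only [flipW]
    rw [Function.update_of_ne (ha b rfl).symm]

variable {J : Type} (K : Blk L (Fin 3 ⊕ J))

open Classical in
/-- Which of the two colourings a block uses. -/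
noncomputable def pp (r : R) (x : R → L → Bool) : ZMod 2 :=
  if ∃ q q', q ≠ r ∧ q' ≠ r ∧ q ≠ q' ∧ ¬ K.D (x q) ∧ ¬ K.D (x q') then 0
  else if ∃ s, r < s ∧ x s = K.pt (Sum.inl 0) then parc (K.pt (Sum.inl 0))
  else if ∃ s, r < s ∧ x s = K.pt (Sum.inl 1) then parc (K.pt (Sum.inl 1)) + 1
  else ∑ q ∈ univ.erase r, parc (x q)

lemma pp_update (r : R) (x : R → L → Bool) (u : L → Bool) :
    pp K r (Function.update x r u) = pp K r x := by
  classical
  unfold pp
  have e1 : (∃ q q', q ≠ r ∧ q' ≠ r ∧ q ≠ q' ∧ ¬ K.D (Function.update x r u q) ∧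
      ¬ K.D (Function.update x r u q')) ↔
      ∃ q q', q ≠ r ∧ q' ≠ r ∧ q ≠ q' ∧ ¬ K.D (x q) ∧ ¬ K.D (x q') := by
    refine exists_congr fun q => exists_congr fun q' => and_congr_right fun h1 =>
      and_congr_right fun h2 => ?_
    rw [Function.update_of_ne h1, Function.update_of_ne h2]
  have e2 : ∀ v, (∃ s, r < s ∧ Function.update x r u s = v) ↔ ∃ s, r < s ∧ x s = v := by
    intro v
    refine exists_congr fun s => and_congr_right fun h => ?_
    rw [Function.update_of_ne h.ne']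
  have e3 : ∑ q ∈ univ.erase r, parc (Function.update x r u q) =
      ∑ q ∈ univ.erase r, parc (x q) :=
    sum_congr rfl (fun q hq => by rw [Function.update_of_ne (mem_erase.1 hq).1])
  exact if_congr e1 rfl (if_congr (e2 _) rfl (if_congr (e2 _) rfl e3))

lemma pp_two {q r s : R} {x : R → L → Bool} (h1 : r ≠ q) (h2 : s ≠ q) (h3 : r ≠ s)
    (h4 : ¬ K.D (x r)) (h5 : ¬ K.D (x s)) : pp K q x = 0 := by
  unfold pp
  rw [if_pos ⟨r, s, h1, h2, h3, h4, h5⟩]

lemma not_two {r s : R} {x : R → L → Bool} (h : ∀ q, q ≠ r → q ≠ s → K.D (x q)) :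
    ¬ ∃ q q', q ≠ r ∧ q' ≠ r ∧ q ≠ q' ∧ ¬ K.D (x q) ∧ ¬ K.D (x q') := by
  rintro ⟨q, q', h1, h2, h3, h4, h5⟩
  by_cases e : q = s
  · exact h5 (h q' h2 (fun e' => h3 (e.trans e'.symm)))
  · exact h4 (h q h1 e)

lemma ex_iff {r s : R} (hrs : r < s) {x : R → L → Bool} (h : ∀ q, q ≠ r → q ≠ s → K.D (x q))
    (j : Fin 3 ⊕ J) : (∃ s', r < s' ∧ x s' = K.pt j) ↔ x s = K.pt j := by
  refine ⟨?_, fun e => ⟨s, hrs, e⟩⟩
  rintro ⟨s', h1, h2⟩
  by_cases e : s' = s
  · exact e ▸ h2
  · exact absurd (h s' h1.ne' e) (K.nd j _ (Or.inl h2))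

lemma pp_row {r s : R} (hrs : r < s) {x : R → L → Bool} (h : ∀ q, q ≠ r → q ≠ s → K.D (x q))
    (hs : x s = K.pt (Sum.inl 0)) : pp K r x = parc (K.pt (Sum.inl 0)) := by
  unfold pp
  rw [if_neg (not_two K h), if_pos ⟨s, hrs, hs⟩]

lemma pp_low {r s : R} (hrs : r < s) {x : R → L → Bool} (h : ∀ q, q ≠ r → q ≠ s → K.D (x q))
    {c : ZMod 2} (hc : c = ∑ q ∈ (univ.erase r).erase s, parc (x q)) :
    pp K r x = parc (x s) + c +
      if x s = (if c = 0 then K.pt (Sum.inl 1) else K.pt (Sum.inl 0)) then 1 else 0 := by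
  have hne : K.pt (Sum.inl 0) ≠ K.pt (Sum.inl 1) := by
    intro e
    have := K.inj (Sum.inl 0) (Sum.inl 1) _ (Or.inl rfl) (Or.inl e)
    simp at this
  unfold pp
  rw [if_neg (not_two K h)]
  simp only [ex_iff K hrs h]
  have hc2 : c = 0 ∨ c = 1 := by generalize c = d; revert d; decide
  by_cases h0 : x s = K.pt (Sum.inl 0)
  · rw [if_pos h0, h0]
    rcases hc2 with rfl | rfl
    · rw [if_pos rfl, if_neg hne]; ring
    · rw [if_neg (by decide : ¬ (1 : ZMod 2) = 0), if_pos rfl, z2_add]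
  · rw [if_neg h0]
    by_cases h1 : x s = K.pt (Sum.inl 1)
    · rw [if_pos h1, h1]
      rcases hc2 with rfl | rfl
      · rw [if_pos rfl, if_pos rfl]; ring
      · rw [if_neg (by decide : ¬ (1 : ZMod 2) = 0), if_neg hne.symm]; ring
    · rw [if_neg h1, ← Finset.add_sum_erase _ _ (mem_erase.2 ⟨hrs.ne', mem_univ s⟩), ← hc,
        if_neg, add_zero]
      split_ifs
      · exact h1
      · exact h0

lemma pp_high {r s : R} (hrs : r < s) {x : R → L → Bool} (h : ∀ q, q ≠ r → q ≠ s → K.D (x q))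
    {c : ZMod 2} (hc : c = ∑ q ∈ (univ.erase r).erase s, parc (x q)) :
    pp K s x = parc (x r) + c := by
  have hno : ∀ j, ¬ ∃ s', s < s' ∧ x s' = K.pt j := by
    rintro j ⟨s', h1, h2⟩
    exact K.nd j _ (Or.inl h2) (h s' (hrs.trans h1).ne' h1.ne')
  unfold pp
  rw [if_neg (not_two K (fun q h1 h2 => h q h2 h1)), if_neg (hno _), if_neg (hno _),
    ← Finset.add_sum_erase _ _ (mem_erase.2 ⟨hrs.ne, mem_univ r⟩), hc, erase_right_comm]

variable (μ : ZMod 2 → L → (L → Bool) → (L → Bool))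

/-- The base colouring of a fibre. -/
noncomputable def MM : B ⊕ (R × L) → Wt B R L → Wt B R L
  | Sum.inl t, w => (flip t w.1, w.2)
  | Sum.inr a, w => (w.1, Function.update w.2 a.1 (μ (pp K a.1 w.2) a.2 (w.2 a.1)))

variable {μ}

lemma MM_fac (hμ : DF Adjc parc μ) :
    Fac (fun x y : Wt B R L => ∃ a, y = flipW a x) (MM K μ) := by
  refine ⟨?_, ?_, ?_, ?_⟩
  · rintro (t | a) w
    · simp [MM, flip_flip]
    · simp [MM, pp_update, (hμ.fac _).inv]
  · rintro (t | a) w
    · exact ⟨Sum.inl t, rfl⟩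
    · obtain ⟨k, hk⟩ := (hμ.fac (pp K a.1 w.2)).adj a.2 (w.2 a.1)
      exact ⟨Sum.inr (a.1, k), by simp only [MM, flipW, hk]⟩
  · rintro (t | a) w e
    · exact flip_ne_self t w.1 (congrArg Prod.fst e)
    · have := congrFun (congrArg Prod.snd e) a.1
      simp only [MM, Function.update_self] at this
      exact (hμ.fac _).ne _ _ this
  · rintro w (t | a) (t' | a') e
    · rw [flip_inj (congrArg Prod.fst e)]
    · exact absurd (congrArg Prod.fst e) (flip_ne_self t w.1)
    · exact absurd (congrArg Prod.fst e).symm (flip_ne_self t' w.1)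
    · have h1 := congrFun (congrArg Prod.snd e) a.1
      simp only [MM, Function.update_self] at h1
      by_cases hq : a.1 = a'.1
      · rw [hq, Function.update_self] at h1
        rw [Prod.ext hq ((hμ.fac _).inj _ _ _ h1)]
      · rw [Function.update_of_ne hq] at h1
        exact absurd h1 ((hμ.fac _).ne _ _)

lemma MM_r {r s : R} (h : r ≠ s) (l : L) (ω : Wt B R L) (u v : L → Bool) :
    MM K μ (Sum.inr (r, l)) (emb r s ω u v) =
      emb r s ω (μ (pp K r (emb r s ω u v).2) l u) v := by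
  refine Prod.ext rfl ?_
  simp only [MM, emb_r h, update_emb_r h]

lemma MM_s (r s : R) (l : L) (ω : Wt B R L) (u v : L → Bool) :
    MM K μ (Sum.inr (s, l)) (emb r s ω u v) =
      emb r s ω u (μ (pp K s (emb r s ω u v).2) l v) := by
  refine Prod.ext rfl ?_
  simp only [MM, emb_s, update_emb_s]

lemma MM_shape (hμ : DF Adjc parc μ) {k a : B ⊕ (R × L)} {w : Wt B R L}
    (h : MM K μ k w = flipW a w) :
    (∃ t, k = Sum.inl t ∧ a = Sum.inl t) ∨ ∃ b b', k = Sum.inr b ∧ a = Sum.inr b' ∧ b.1 = b'.1 := by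
  rcases k with t | b <;> rcases a with t' | b'
  · exact Or.inl ⟨t, rfl, by rw [flip_inj (congrArg Prod.fst h)]⟩
  · exact absurd (congrArg Prod.fst h) (flip_ne_self t w.1)
  · exact absurd (congrArg Prod.fst h).symm (flip_ne_self t' w.1)
  · refine Or.inr ⟨b, b', rfl, rfl, ?_⟩
    by_contra hq
    have h1 := congrFun (congrArg Prod.snd h) b.1
    simp only [MM, flipW, Function.update_self, Function.update_of_ne hq] at h1
    exact (hμ.fac _).ne _ _ h1

lemma MM_node (r s : R) (l : L) (w : Wt B R L) :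
    node r s (MM K μ (Sum.inr (r, l)) w) = node r s w :=
  node_congr rfl (fun q h1 _ => by simp only [MM]; rw [Function.update_of_ne h1])

lemma MM_conn (hμ : DF Adjc parc μ) {r s : R} (hrs : r < s) (l l' : L) (x y : Wt B R L)
    (hx : ∀ q, q ≠ r → q ≠ s → K.D (x.2 q)) (hxy : node r s x = node r s y) :
    Conn (MM K μ (Sum.inr (r, l))) (MM K μ (Sum.inr (s, l'))) x y := by
  set ω := node r s x with hω
  set c := ∑ q ∈ (univ.erase r).erase s, parc (x.2 q) with hc
  have hD : ∀ u v q, q ≠ r → q ≠ s → K.D ((emb r s ω u v).2 q) := by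
    intro u v q h1 h2
    rw [emb_q h1 h2, hω, node_q h1 h2]; exact hx q h1 h2
  have hc' : ∀ u v, c = ∑ q ∈ (univ.erase r).erase s, parc ((emb r s ω u v).2 q) := by
    intro u v
    refine sum_congr rfl (fun q hq => ?_)
    simp only [mem_erase] at hq
    rw [emb_q hq.2.1 hq.1, hω, node_q hq.2.1 hq.1]
  have ht := hμ.torus l l' c (if c = 0 then K.pt (Sum.inl 1) else K.pt (Sum.inl 0))
    (fun p => (μ (parc p.2 + c + if p.2 = (if c = 0 then K.pt (Sum.inl 1)
      else K.pt (Sum.inl 0)) then 1 else 0) l p.1, p.2))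
    (fun p => (p.1, μ (parc p.1 + c) l' p.2)) (fun _ _ => rfl) (fun _ _ => rfl)
    (x.2 r, x.2 s) (y.2 r, y.2 s)
  have := (Conn.sim (f' := MM K μ (Sum.inr (r, l))) (g' := MM K μ (Sum.inr (s, l')))
    (fun p => emb r s ω p.1 p.2) (fun _ => True) (fun _ _ => ⟨trivial, trivial⟩)
    (fun p _ => by
      have := Conn.left (MM K μ (Sum.inr (r, l))) (MM K μ (Sum.inr (s, l'))) (emb r s ω p.1 p.2)
      rwa [MM_r K hrs.ne, pp_low K hrs (hD _ _) (hc' _ _), emb_s] at this)
    (fun p _ => by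
      have := Conn.right (MM K μ (Sum.inr (r, l))) (MM K μ (Sum.inr (s, l'))) (emb r s ω p.1 p.2)
      rwa [MM_s K, pp_high K hrs (hD _ _) (hc' _ _), emb_r hrs.ne] at this) trivial ht).2
  simp only at this
  rwa [hω, emb_node hrs.ne, ← hω, hxy, emb_node hrs.ne] at this

end W

end Pool.Agent.Lib.MP_c88ce3_co
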