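import Pool.Agent.Lib.MP_c88ce3_co.Main
import Pool.Agent.Lib.MP_c88ce3_co.Defs

set_option autoImplicit false

namespace Pool.Agent.Lib.MP_c88ce3_co

open Finset

lemma cube_adj {d : ℕ} {x y : Fin d → Bool} : (cube d).Adj x y ↔ Adjc x y := by
  change hammingDist x y = 1 ↔ _
  unfold hammingDist
  rw [card_eq_one]
  constructor
  · rintro ⟨a, ha⟩
    refine ⟨a, funext fun b => ?_⟩
    have h := Finset.ext_iff.1 ha b
    simp only [mem_filter, mem_univ, true_and, mem_singleton] at h
    by_cases hb : b = a
    · subst hb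
      have := h.2 rfl
      rw [flip_self]
      revert this; cases x b <;> cases y b <;> simp
    · rw [flip_ne hb]
      by_contra hne
      exact hb (h.1 (fun e => hne e.symm))
  · rintro ⟨a, rfl⟩
    refine ⟨a, Finset.ext fun b => ?_⟩
    simp only [mem_filter, mem_univ, true_and, mem_singleton]
    by_cases hb : b = a
    · subst hb; simp [flip_self]
    · simp [flip_ne hb, hb]

/-- A colour class as a subgraph. -/
def mk {d : ℕ} {m : Fin d → (Fin d → Bool) → (Fin d → Bool)} (hm : Fac Adjc m) (i : Fin d) :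
    (cube d).Subgraph where
  verts := Set.univ
  Adj x y := y = m i x
  adj_sub := by rintro x _ rfl; exact cube_adj.2 (hm.adj i x)
  edge_vert := fun _ => trivial
  symm := ⟨by rintro x _ rfl; exact (hm.inv i x).symm⟩

theorem final {ε : ℝ} (hε : 0 < ε) : ∃ d0 : ℕ, ∀ d : ℕ, d0 ≤ d →
    ∃ M : Fin d → (cube d).Subgraph, (∀ i, (M i).IsPerfectMatching) ∧
      (∀ e ∈ (cube d).edgeSet, ∃! i, e ∈ (M i).edgeSet) ∧
      ∀ i j, i ≠ j → ∃ (v : Fin d → Bool) (p : (M i ⊔ M j).spanningCoe.Walk v v),
        p.IsCycle ∧ (1 - ε) * (2 : ℝ) ^ d ≤ p.length := by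
  classical
  obtain ⟨d0, hd0⟩ := main hε
  refine ⟨d0, fun d hd => ?_⟩
  obtain ⟨m, hm, hS⟩ := hd0 d hd
  refine ⟨mk hm, fun i => ?_, fun e he => ?_, fun i j hij => ?_⟩
  · exact SimpleGraph.Subgraph.isPerfectMatching_iff.2 (fun v => ⟨m i v, rfl, fun _ h => h⟩)
  · induction e using Sym2.ind with
    | _ x y =>
      obtain ⟨a, rfl⟩ := (cube_adj (x := x) (y := y)).1 he
      obtain ⟨k, hk⟩ := hm.cover x a
      refine ⟨k, hk.symm, fun l hl => hm.inj x l k ?_⟩
      rw [hk]; exact (show flip a x = m l x from hl).symm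
  · obtain ⟨S, ⟨v, hv⟩, h1, h2⟩ := hS i j hij
    set G := (mk hm i ⊔ mk hm j).spanningCoe with hG
    have hadj : ∀ x y, G.Adj x y ↔ y = m i x ∨ y = m j x := fun x y => Iff.rfl
    have hcyc : G.IsCycles := by
      intro x _
      have : G.neighborSet x = {m i x, m j x} := by ext y; exact hadj x y
      rw [this, Set.ncard_pair (fun e => hij (hm.inj x i j e))]
    obtain ⟨p, hp, hverts⟩ := hcyc.exists_cycle_toSubgraph_verts_eq_connectedComponentSupp
      (c := G.connectedComponentMk v) (v := v) rfl ⟨m i v, (hadj _ _).2 (Or.inl rfl)⟩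
    refine ⟨v, p, hp, h1.trans ?_⟩
    have hsub : S ⊆ p.support.tail.toFinset := by
      intro x hx
      have hr : G.Reachable v x := by
        have := h2 v hv x hx
        clear hx
        induction this with
        | refl => exact SimpleGraph.Reachable.refl _
        | tail _ hs ih => exact ih.trans (SimpleGraph.Adj.reachable ((hadj _ _).2 hs))
      have hx' : x ∈ p.toSubgraph.verts := by
        rw [hverts]
        exact (SimpleGraph.ConnectedComponent.mem_supp_iff _ _).2
          (SimpleGraph.ConnectedComponent.sound hr.symm)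
      rw [SimpleGraph.Walk.mem_verts_toSubgraph] at hx'
      rw [List.mem_toFinset]
      rcases (SimpleGraph.Walk.mem_support_iff p).1 hx' with rfl | h
      · exact SimpleGraph.Walk.end_mem_tail_support hp.not_nil
      · exact h
    have h3 := (card_le_card hsub).trans (List.toFinset_card_le _)
    rw [List.length_tail, SimpleGraph.Walk.length_support] at h3
    exact_mod_cast h3

end Pool.Agent.Lib.MP_c88ce3_co
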