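import Pool.Agent.Lib.MP_c88ce3_co.Points

set_option autoImplicit false
set_option linter.unusedSectionVars false

namespace Pool.Agent.Lib.MP_c88ce3_co

open Finset

section

variable {U B L : Type} [Fintype U] [DecidableEq U] [Fintype B] [DecidableEq B]
  [Fintype L] [DecidableEq L]

/-- The fibre that names a displaced colour. -/
def base (z : U → Bool) : U ⊕ B → U → Bool
  | Sum.inl κ => Function.update z κ false
  | Sum.inr _ => z

lemma base_flip (κ : U) (z : U → Bool) : base (B := B) (flip κ z) (Sum.inl κ) = base (B := B) z (Sum.inl κ) := by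
  simp [base, flip]

lemma base_two (z0 : U → Bool) (a : U ⊕ B) : ∃ z1, ∀ z, base z a = z0 → z = z0 ∨ z = z1 := by
  rcases a with κ | t
  · refine ⟨flip κ z0, fun z hz => ?_⟩
    subst hz
    cases h : z κ
    · left; simp only [base]; rw [← h, Function.update_eq_self]
    · right
      funext b
      by_cases hb : b = κ
      · subst hb; simp [base, flip_self, h]
      · simp [base, flip_ne hb, hb]
  · exact ⟨z0, fun z hz => Or.inl hz⟩

open Classical in
theorem exists_labels (l0 : L) (n t : ℕ) {C : Type} [Fintype C]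
    (hn : Fintype.card ((U → Bool) × (U ⊕ B)) ≤ n)
    (ht : t * Fintype.card L = Fintype.card L ^ Fintype.card (U → Bool) * n)
    (hC : Fintype.card C = Fintype.card U + Fintype.card B + t * Fintype.card L) :
    ∃ ρ : (U → Bool) → C ≃ U ⊕ (B ⊕ (Fin t × L)),
      (∀ z κ k, ρ z k = Sum.inl κ → ρ (flip κ z) k = Sum.inl κ) ∧
      ∀ i j, i ≠ j → (univ.filter (fun z => ¬ Good ρ z i j)).card ≤ 5 := by
  obtain ⟨code⟩ : Nonempty ((U → Bool) × (U ⊕ B) ↪ Fin n) :=
    Function.Embedding.nonempty_of_card_le (by simpa using hn)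
  have hLpos : 0 < Fintype.card L := Fintype.card_pos_iff.2 ⟨l0⟩
  have hE : ∀ z : U → Bool, ∃ e : (((U → Bool) → L) × Fin n) ≃ Fin t × L,
      ∀ g g', (e g).1 = (e g').1 → g.2 = g'.2 ∧ ∀ z', z' ≠ z → g.1 z' = g'.1 z' := by
    intro z
    have hc : Fintype.card (({z' // z' ≠ z} → L) × Fin n) = t := by
      have h1 := Fintype.card_congr (Equiv.funSplitAt z L)
      rw [Fintype.card_prod, Fintype.card_fun] at h1
      rw [h1] at ht
      rw [Fintype.card_prod, Fintype.card_fin]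
      refine Nat.eq_of_mul_eq_mul_right hLpos ?_
      rw [ht]; ring
    let e1 := Fintype.equivFinOfCardEq hc
    refine ⟨(((Equiv.funSplitAt z L).prodCongr (Equiv.refl _)).trans (Equiv.prodAssoc _ _ _)).trans
      ((Equiv.prodComm _ _).trans (e1.prodCongr (Equiv.refl _))), fun g g' h => ?_⟩
    have h2 := e1.injective h
    have h3 := congrArg Prod.snd h2
    have h4 := congrArg Prod.fst h2
    exact ⟨h3, fun z' hz' => congrFun h4 ⟨z', hz'⟩⟩
  choose e he using hE
  let δ : (U → Bool) → U ⊕ B → ((U → Bool) → L) × Fin n :=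
    fun z a => (fun _ => l0, code (base z a, a))
  have δinj : ∀ z a a', (δ z a).2 = (δ z a').2 → a = a' :=
    fun z a a' h => congrArg Prod.snd (code.injective h)
  let th : (U → Bool) → (U ⊕ B) ⊕ (((U → Bool) → L) × Fin n) →
      (U ⊕ B) ⊕ (((U → Bool) → L) × Fin n) := fun z =>
    Sum.elim (fun a => Sum.inr (δ z a))
      (fun g => if h : ∃ a, δ z a = g then Sum.inl h.choose else Sum.inr g)
  have th1 : ∀ z a, th z (Sum.inl a) = Sum.inr (δ z a) := fun _ _ => rfl
  have th2 : ∀ z a, th z (Sum.inr (δ z a)) = Sum.inl a := by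
    intro z a
    have h : ∃ a', δ z a' = δ z a := ⟨a, rfl⟩
    change (if h : ∃ a', δ z a' = δ z a then Sum.inl h.choose else Sum.inr (δ z a)) = _
    rw [dif_pos h, δinj z _ _ (congrArg Prod.snd h.choose_spec)]
  have th3 : ∀ z g, (¬ ∃ a, δ z a = g) → th z (Sum.inr g) = Sum.inr g := fun z g h => dif_neg h
  have thi : ∀ z, Function.Involutive (th z) := by
    rintro z (a | g)
    · rw [th1, th2]
    · by_cases h : ∃ a, δ z a = g
      · obtain ⟨a, rfl⟩ := h
        rw [th2, th1]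
      · rw [th3 z g h, th3 z g h]
  have φ : C ≃ (U ⊕ B) ⊕ (((U → Bool) → L) × Fin n) := Fintype.equivOfCardEq (by
    rw [hC, ht]; simp)
  let ρ : (U → Bool) → C ≃ U ⊕ (B ⊕ (Fin t × L)) := fun z =>
    ((φ.trans (thi z).toPerm).trans ((Equiv.refl _).sumCongr (e z))).trans (Equiv.sumAssoc _ _ _)
  have ρ1 : ∀ z k g, th z (φ k) = Sum.inr g → ρ z k = Sum.inr (Sum.inr (e z g)) := by
    intro z k g h
    simp [ρ, h]
  have ρ2 : ∀ z k κ, th z (φ k) = Sum.inl (Sum.inl κ) → ρ z k = Sum.inl κ := by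
    intro z k κ h
    simp [ρ, h]
  have ρ3 : ∀ z k κ, ρ z k = Sum.inl κ → th z (φ k) = Sum.inl (Sum.inl κ) := by
    intro z k κ h
    rcases h' : th z (φ k) with (κ' | b) | g
    · rw [ρ2 z k κ' h'] at h; rw [Sum.inl_injective h]
    · simp [ρ, h'] at h
    · rw [ρ1 z k g h'] at h; simp at h
  refine ⟨ρ, fun z κ k h => ρ2 _ _ _ ?_, fun i j hij => ?_⟩
  · have h1 := ρ3 z k κ h
    have h2 : φ k = Sum.inr (δ z (Sum.inl κ)) := by rw [← thi z (φ k), h1, th1]
    have h3 : δ z (Sum.inl κ) = δ (flip κ z) (Sum.inl κ) := by simp only [δ, base_flip]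
    rw [h2, h3, th2]
  let A : (U ⊕ B) ⊕ (((U → Bool) → L) × Fin n) → Finset (U → Bool) := fun k =>
    univ.filter (fun z => ∃ g a, k = Sum.inr g ∧ (δ z a).2 = g.2)
  have hA : ∀ k, (A k).card ≤ 2 := by
    intro k
    rcases (A k).eq_empty_or_nonempty with h | ⟨z0, hz0⟩
    · rw [h]; simp
    obtain ⟨g, a, rfl, h0⟩ := (mem_filter.1 hz0).2
    obtain ⟨z1, hz1⟩ := base_two (base z0 a) a
    refine le_trans (card_le_card (t := {base z0 a, z1}) (fun z hz => ?_)) card_le_two
    obtain ⟨g', a', h1, h2⟩ := (mem_filter.1 hz).2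
    obtain rfl := Sum.inr_injective h1
    have h3 := code.injective (h2.trans h0.symm)
    simp only [Prod.mk.injEq] at h3
    obtain ⟨h4, rfl⟩ := h3
    simpa using hz1 z h4
  let Sm : Finset (U → Bool) := univ.filter (fun z => ∃ g g', φ i = Sum.inr g ∧ φ j = Sum.inr g' ∧
    (e z g).1 = (e z g').1)
  have hSm : Sm.card ≤ 1 := by
    refine card_le_one.2 (fun z hz z' hz' => ?_)
    obtain ⟨g, g', h1, h2, h3⟩ := (mem_filter.1 hz).2
    obtain ⟨g1, g1', h1', h2', h3'⟩ := (mem_filter.1 hz').2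
    obtain rfl := Sum.inr_injective (h1.symm.trans h1')
    obtain rfl := Sum.inr_injective (h2.symm.trans h2')
    by_contra hne
    apply hij
    apply φ.injective
    rw [h1, h2]
    congr 1
    refine Prod.ext (funext fun w => ?_) (he z g g' h3).1
    by_cases hw : w = z
    · exact (he z' g g' h3').2 w (hw ▸ hne)
    · exact (he z g g' h3).2 w hw
  have hsub : univ.filter (fun z => ¬ Good ρ z i j) ⊆ A (φ i) ∪ A (φ j) ∪ Sm := by
    intro z hz
    by_contra hc
    simp only [mem_union, not_or, A, Sm, mem_filter, mem_univ, true_and] at hc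
    obtain ⟨⟨c1, c2⟩, c3⟩ := hc
    apply (mem_filter.1 hz).2
    have fix : ∀ k g, φ k = Sum.inr g → (¬ ∃ g a, φ k = Sum.inr g ∧ (δ z a).2 = g.2) →
        th z (φ k) = Sum.inr g := by
      intro k g h1 h2
      rw [h1]
      exact th3 z g (fun ⟨a, ha⟩ => h2 ⟨g, a, h1, by rw [ha]⟩)
    rcases hi : φ i with a | g <;> rcases hj : φ j with a' | g'
    · refine ⟨(e z (δ z a), e z (δ z a')), ρ1 _ _ _ (by rw [hi, th1]), ρ1 _ _ _ (by rw [hj, th1]),
        fun h => hij (φ.injective ?_)⟩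
      rw [hi, hj, δinj z a a' (he z _ _ h).1]
    · exact ⟨(e z (δ z a), e z g'), ρ1 _ _ _ (by rw [hi, th1]), ρ1 _ _ _ (fix j g' hj c2),
        fun h => c2 ⟨g', a, hj, (he z _ _ h).1⟩⟩
    · exact ⟨(e z g, e z (δ z a')), ρ1 _ _ _ (fix i g hi c1), ρ1 _ _ _ (by rw [hj, th1]),
        fun h => c1 ⟨g, a', hi, (he z _ _ h).1.symm⟩⟩
    · exact ⟨(e z g, e z g'), ρ1 _ _ _ (fix i g hi c1), ρ1 _ _ _ (fix j g' hj c2),
        fun h => c3 ⟨g, g', hi, hj, h⟩⟩
  have h1 := (card_le_card hsub).trans ((card_union_le _ _).trans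
    (Nat.add_le_add_right (card_union_le _ _) _))
  have := hA (φ i)
  have := hA (φ j)
  omega

end

end Pool.Agent.Lib.MP_c88ce3_co
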