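import Pool.Agent.Lib.MP_c88ce3_co.Labels

set_option autoImplicit false
set_option linter.unusedSectionVars false

namespace Pool.Agent.Lib.MP_c88ce3_co

open Finset

section
variable {U B R L : Type} [Fintype U] [DecidableEq U] [Fintype B] [DecidableEq B] [Fintype R]
  [LinearOrder R] [Fintype L] [DecidableEq L]

/-- Coordinates of a vertex. -/
def valV : ((U → Bool) × Wt B R L) ≃ (U ⊕ (B ⊕ (R × L)) → Bool) where
  toFun x := Sum.elim x.1 (val x.2)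
  invFun f := (fun κ => f (Sum.inl κ), fun t => f (Sum.inr (Sum.inl t)),
    fun r l => f (Sum.inr (Sum.inr (r, l))))
  left_inv _ := rfl
  right_inv f := by
    funext a
    rcases a with κ | t | b <;> rfl

lemma valV_flip (a : U ⊕ (B ⊕ (R × L))) (x : (U → Bool) × Wt B R L) :
    valV (flipV a x) = flip a (valV x) := by
  funext b
  rcases a with κ | a <;> rcases b with κ' | b
  · simp [valV, flipV, flip_apply]
  · simp [valV, flipV, flip_apply]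
  · simp [valV, flipV, flip_apply]
  · simp [valV, flipV, flip_apply, val_flipW]

end

lemma Fac.transport {V V' C : Type} {adj : V → V → Prop} {adj' : V' → V' → Prop}
    {m : C → V → V} (h : Fac adj m) (e : V ≃ V') (ha : ∀ x y, adj x y → adj' (e x) (e y)) :
    Fac adj' (fun k x => e (m k (e.symm x))) := by
  refine ⟨fun k x => by simp [h.inv], fun k x => ?_, fun k x hx => ?_,
    fun x k l hkl => h.inj _ _ _ (e.injective hkl)⟩
  · have := ha _ _ (h.adj k (e.symm x))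
    rwa [e.apply_symm_apply] at this
  · exact h.ne k (e.symm x) (e.injective (by rw [hx]; simp))

theorem assemble (u κ c k k0 nB n t d : ℕ) (hu : 3 ≤ u) (hc : 2 ≤ c)
    (h1 : 2 * c + 3 * k ≤ 2 ^ κ) (h2 : 3 + 2 ^ κ * (nB + t * 2 ^ κ) ≤ 2 ^ k)
    (h3 : c + (1 + k0) ≤ nB) (h4 : d * (d * (u + u)) ≤ 2 ^ k0)
    (h5 : 2 ^ (u + u) * (u + u + nB) ≤ n) (h6 : t * 2 ^ κ = (2 ^ κ) ^ (2 ^ (u + u)) * n)
    (h7 : d = u + u + nB + t * 2 ^ κ) :
    ∃ m : Fin d → (Fin d → Bool) → (Fin d → Bool), Fac Adjc m ∧ ∀ i j, i ≠ j →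
      ∃ S : Finset (Fin d → Bool),
        (1 - 5 / 2 ^ u) * ((1 - 1 / 2 ^ c) * (1 - 2 / 2 ^ c) ^ t) * (2 : ℝ) ^ d ≤ S.card ∧
        ∀ x ∈ S, ∀ y ∈ S, Conn (m i) (m j) x y := by
  classical
  obtain ⟨μ, hμ⟩ := exists_DF κ
  obtain ⟨K, hK⟩ := exists_blk (L := Fin (2 ^ κ))
    (J := Fin 3 ⊕ (Fin (2 ^ κ) × (Fin nB ⊕ (Fin t × Fin (2 ^ κ))))) c k hc (by simpa using h1)
    (by simpa using h2)
  obtain ⟨K0, hK0⟩ := exists_blk0 (B := Fin nB) (J := Fin d × Fin d × (Fin u ⊕ Fin u)) c k0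
    (by omega) (by simpa using h3) (by simpa using h4)
  obtain ⟨ρ, hρ, hbad⟩ := exists_labels (U := Fin u ⊕ Fin u) (B := Fin nB)
    (⟨0, by positivity⟩ : Fin (2 ^ κ)) n t (C := Fin d) (by simpa using h5) (by simpa using h6)
    (by simpa using h7)
  have hT : ∀ i j : Fin d, ∃ T : ZTree (Fin u ⊕ Fin u), (i ≠ j → ∀ z, T.S z → Good ρ z i j) ∧
      (1 - 5 / 2 ^ u) * (2 : ℝ) ^ (u + u) ≤ (univ.filter T.S).card := by
    intro i j
    by_cases hij : i = j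
    · obtain ⟨T, -, h⟩ := exists_tree hu ∅ (by simp)
      exact ⟨T, fun h => absurd hij h, h⟩
    · obtain ⟨T, h', h⟩ := exists_tree hu _ (hbad i j hij)
      exact ⟨T, fun _ z hz => by simpa using h' z hz, h⟩
  choose Tr hTr hTc using hT
  obtain ⟨m, hm, hconn⟩ := phase2 K K0 hμ hρ Tr (fun i j z hij => hTr i j hij.ne z)
  have δ : ((Fin u ⊕ Fin u) ⊕ (Fin nB ⊕ (Fin t × Fin (2 ^ κ)))) ≃ Fin d :=
    Fintype.equivFinOfCardEq (by simp [h7, add_assoc])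
  let e := (valV (U := Fin u ⊕ Fin u) (B := Fin nB) (R := Fin t) (L := Fin (2 ^ κ))).trans
    (δ.arrowCongr (Equiv.refl Bool))
  have key : ∀ i j, i < j → ∃ S : Finset (Fin d → Bool),
      (1 - 5 / 2 ^ u) * ((1 - 1 / 2 ^ c) * (1 - 2 / 2 ^ c) ^ t) * (2 : ℝ) ^ d ≤ S.card ∧
      ∀ x ∈ S, ∀ y ∈ S, Conn (fun x => e (m i (e.symm x))) (fun x => e (m j (e.symm x))) x y := by
    intro i j hij
    refine ⟨((univ.filter (Tr i j).S) ×ˢ ((univ.filter K0.D) ×ˢ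
      (Fintype.piFinset (fun _ : Fin t => univ.filter K.D)))).map e.toEmbedding, ?_, ?_⟩
    · rw [card_map, card_product, card_product, Fintype.card_piFinset]
      simp only [prod_const, card_univ, Fintype.card_fin] at hK hK0 ⊢
      push_cast
      have p1 : (0 : ℝ) ≤ 1 - 2 / 2 ^ c := by
        have : (2 : ℝ) ^ 1 ≤ 2 ^ c := pow_le_pow_right₀ (by norm_num) (by omega)
        rw [sub_nonneg, div_le_one (by positivity)]; linarith
      have p2 : (0 : ℝ) ≤ 1 - 1 / 2 ^ c := by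
        have : (1 : ℝ) ≤ 2 ^ c := one_le_pow₀ (by norm_num)
        rw [sub_nonneg, div_le_one (by positivity)]; linarith
      have q1 := pow_le_pow_left₀ (by positivity) hK t
      have q2 := mul_le_mul hK0 q1 (by positivity) (by positivity)
      have q3 := mul_le_mul (hTc i j) q2 (by positivity) (by positivity)
      refine le_trans (le_of_eq ?_) q3
      rw [h7, mul_pow, ← pow_mul, mul_comm (2 ^ κ) t, pow_add, pow_add (2 : ℝ) (u + u)]
      ring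
    · intro x hx y hy
      obtain ⟨x, hx', rfl⟩ := mem_map.1 hx
      obtain ⟨y, hy', rfl⟩ := mem_map.1 hy
      simp only [mem_product, mem_filter, mem_univ, true_and, Fintype.mem_piFinset] at hx' hy'
      exact (Conn.sim e (fun _ => True) (fun _ _ => ⟨trivial, trivial⟩)
        (fun x _ => by
          have := Conn.left (fun x => e (m i (e.symm x))) (fun x => e (m j (e.symm x))) (e x)
          simpa using this)
        (fun x _ => by
          have := Conn.right (fun x => e (m i (e.symm x))) (fun x => e (m j (e.symm x))) (e x)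
          simpa using this) trivial
        (hconn i j hij x y hx'.1 hx'.2 hy'.1 hy'.2)).2
  refine ⟨_, hm.transport (adj' := Adjc) e ?_, fun i j hij => ?_⟩
  · rintro x _ ⟨a, rfl⟩
    refine ⟨δ a, funext fun b => ?_⟩
    obtain ⟨b, rfl⟩ := δ.surjective b
    simp [e, valV_flip, flip_apply]
  · rcases lt_or_gt_of_ne hij with h | h
    · exact key i j h
    · obtain ⟨S, h1, h2⟩ := key j i h
      exact ⟨S, h1, fun x hx y hy => (h2 x hx y hy).swap⟩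

lemma poly_le_exp (C k : ℕ) : ∃ n0, ∀ n, n0 ≤ n → C * (n + 1) ^ k ≤ 2 ^ n := by
  have h := tendsto_pow_const_div_const_pow_of_one_lt k (by norm_num : (1 : ℝ) < 2)
  have h2 := (h.eventually (gt_mem_nhds (show (0 : ℝ) < 1 / (2 * C + 1) by positivity)))
  obtain ⟨n0, hn0⟩ := Filter.eventually_atTop.1 h2
  refine ⟨n0, fun n hn => ?_⟩
  have h3 := hn0 (n + 1) (by omega)
  rw [div_lt_div_iff₀ (by positivity) (by positivity), pow_succ (2 : ℝ)] at h3
  have h4 : (C : ℝ) * ((n : ℝ) + 1) ^ k ≤ 2 ^ n := by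
    push_cast at h3
    have : (0 : ℝ) ≤ ((n : ℝ) + 1) ^ k := by positivity
    nlinarith
  exact_mod_cast h4

lemma params (u : ℕ) : ∃ d0, ∀ d, d0 ≤ d → ∃ lg κ nB n t : ℕ, 1 ≤ lg ∧
    2 * (lg + u) + 3 * (2 * lg + 2) ≤ 2 ^ κ ∧
    3 + 2 ^ κ * (nB + t * 2 ^ κ) ≤ 2 ^ (2 * lg + 2) ∧
    (lg + u) + (1 + (2 * lg + 2 * u)) ≤ nB ∧ d * (d * (u + u)) ≤ 2 ^ (2 * lg + 2 * u) ∧
    2 ^ (u + u) * (u + u + nB) ≤ n ∧ t * 2 ^ κ = (2 ^ κ) ^ (2 ^ (u + u)) * n ∧
    d = u + u + nB + t * 2 ^ κ ∧ 1 + 2 * t ≤ 2 * 2 ^ lg := by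
  obtain ⟨M, hM⟩ : ∃ M, M = 2 ^ (u + u) := ⟨_, rfl⟩
  rw [← hM]
  have hMpos : 0 < M := by rw [hM]; positivity
  obtain ⟨n0, hn0⟩ := poly_le_exp ((3 * M + 2) * (4 * u + 28) ^ (2 * M)) (2 * M)
  refine ⟨2 ^ n0, fun d hd => ?_⟩
  have hd0 : d ≠ 0 := by
    have : 0 < 2 ^ n0 := by positivity
    omega
  have hd1 : d < 2 ^ (Nat.log 2 d + 1) := Nat.lt_pow_succ_log_self (by norm_num) d
  have hd2 := (hn0 _ (Nat.le_log_of_pow_le (by norm_num) hd)).trans (Nat.pow_log_le_self 2 hd0)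
  obtain ⟨lg, hlg⟩ : ∃ lg, lg = Nat.log 2 d + 1 := ⟨_, rfl⟩
  have hlg1 : 1 ≤ lg := by omega
  rw [← hlg] at hd1 hd2
  clear hlg hn0 hd hM
  rw [mul_assoc, ← mul_pow] at hd2
  have hW2 : 4 * u + 28 * lg ≤ (4 * u + 28) * lg := by nlinarith
  generalize (4 * u + 28) * lg = W at hd2 hW2
  have hb1 : 8 * lg + 2 * u + 6 < 2 ^ (Nat.log 2 (8 * lg + 2 * u + 6) + 1) :=
    Nat.lt_pow_succ_log_self (by norm_num) _
  have hb2 : 2 ^ (Nat.log 2 (8 * lg + 2 * u + 6) + 1) ≤ W := by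
    have h1 := Nat.pow_log_le_self 2 (show 8 * lg + 2 * u + 6 ≠ 0 by omega)
    rw [pow_succ]
    omega
  generalize Nat.log 2 (8 * lg + 2 * u + 6) + 1 = κ at hb1 hb2
  refine ⟨lg, κ, ?_⟩
  generalize 2 ^ κ = b at hb1 hb2 ⊢
  have hbpos : 0 < b := by omega
  obtain ⟨b0, hb0⟩ : ∃ b0, b0 = 3 * lg + 3 * u + 1 := ⟨_, rfl⟩
  have hW1 : W ≤ W ^ M := Nat.le_self_pow hMpos.ne' W
  have hbM : b ^ M ≤ W ^ M := Nat.pow_le_pow_left hb2 M
  have hbMpos : 0 < b ^ M := by positivity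
  have e3 : W ^ (2 * M) = W ^ M * W ^ M := by rw [two_mul, pow_add]
  rw [e3] at hd2
  generalize W ^ M = X at hW1 hbM hd2
  have hs : u + u + b0 ≤ 2 * X := by omega
  have hb3 : b ≤ b ^ M := Nat.le_self_pow hMpos.ne' b
  have hb4 : b ^ (M - 1) * b = b ^ M := by rw [← pow_succ, Nat.sub_add_cancel hMpos]
  generalize b ^ (M - 1) = Y' at hb4
  generalize b ^ M = Y at hb4 hb3 hbM hbMpos
  have hbig : M * (u + u + b0 + Y) * Y + (u + u + b0) ≤ d := by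
    refine le_trans ?_ hd2
    have e1 : M * (u + u + b0 + Y) * Y ≤ M * (3 * X) * X :=
      Nat.mul_le_mul (Nat.mul_le_mul_left _ (by omega)) hbM
    have e2 : X ≤ X * X := Nat.le_mul_self _
    nlinarith
  have hrm1 : (d - (u + u + b0)) % Y < Y := Nat.mod_lt _ hbMpos
  have hdiv := Nat.div_add_mod (d - (u + u + b0)) Y
  have hn1 : M * (u + u + b0 + Y) ≤ (d - (u + u + b0)) / Y :=
    (Nat.le_div_iff_mul_le hbMpos).2 (by omega)
  generalize (d - (u + u + b0)) / Y = n at hdiv hn1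
  generalize (d - (u + u + b0)) % Y = rm at hdiv hrm1
  have htb : Y' * n * b = Y * n := by rw [mul_right_comm, hb4]
  generalize Y' * n = t at htb
  have hdec : d = u + u + (b0 + rm) + t * b := by omega
  have htd : t ≤ d := by
    have : t * 1 ≤ t * b := Nat.mul_le_mul_left _ hbpos
    omega
  have hbd : b ≤ d := by
    have e2 : 1 * 1 * Y ≤ M * (u + u + b0 + Y) * Y :=
      Nat.mul_le_mul_right _ (Nat.mul_le_mul hMpos (by omega))
    omega
  have hsq : d * d ≤ 2 ^ lg * 2 ^ lg := Nat.mul_le_mul hd1.le hd1.le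
  refine ⟨b0 + rm, n, t, hlg1, by omega, ?_, by omega, ?_,
    le_trans (Nat.mul_le_mul_left _ (by omega)) hn1, htb, hdec, by omega⟩
  · have e1 : b * (b0 + rm + t * b) ≤ d * d := Nat.mul_le_mul hbd (by omega)
    have e2 : 2 ^ (2 * lg + 2) = 4 * (2 ^ lg * 2 ^ lg) := by ring
    have e3 : 0 < 2 ^ lg * 2 ^ lg := by positivity
    rw [e2]; omega
  · have e1 : u + u ≤ 2 ^ (2 * u) := by rw [← two_mul]; exact Nat.lt_two_pow_self.le
    have e2 : 2 ^ (2 * lg + 2 * u) = 2 ^ lg * 2 ^ lg * 2 ^ (2 * u) := by ring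
    rw [e2, ← mul_assoc]
    exact Nat.mul_le_mul hsq e1

lemma real_bound {x y : ℝ} {t : ℕ} (hx0 : 0 < x) (hy0 : 0 < y) (hy : 7 * y < 1)
    (e4 : (1 + 2 * t) * x ≤ 2 * y) :
    1 - 7 * y ≤ (1 - 5 * y) * ((1 - x) * (1 - 2 * x) ^ t) := by
  have ht0 : (0 : ℝ) ≤ t := by positivity
  have htx : 0 ≤ t * x := by positivity
  have e5 : 1 + t * (-(2 * x)) ≤ (1 + -(2 * x)) ^ t := one_add_mul_le_pow (by nlinarith) t
  rw [← sub_eq_add_neg] at e5
  have e6 : 1 - 2 * y ≤ (1 - x) * (1 - 2 * x) ^ t := by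
    have f1 : (1 - x) * (1 + t * (-(2 * x))) ≤ (1 - x) * (1 - 2 * x) ^ t :=
      mul_le_mul_of_nonneg_left e5 (by nlinarith)
    have f2 : 0 ≤ t * x * x := by positivity
    nlinarith
  have := mul_le_mul_of_nonneg_left e6 (show 0 ≤ 1 - 5 * y by linarith)
  nlinarith

theorem main {ε : ℝ} (hε : 0 < ε) : ∃ d0, ∀ d, d0 ≤ d →
    ∃ m : Fin d → (Fin d → Bool) → (Fin d → Bool), Fac Adjc m ∧ ∀ i j, i ≠ j →
      ∃ S : Finset (Fin d → Bool), S.Nonempty ∧ (1 - ε) * (2 : ℝ) ^ d ≤ S.card ∧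
        ∀ x ∈ S, ∀ y ∈ S, Conn (m i) (m j) x y := by
  obtain ⟨u0, hu0⟩ := pow_unbounded_of_one_lt (7 / ε) (by norm_num : (1 : ℝ) < 2)
  obtain ⟨u, hu⟩ : ∃ u, u = u0 + 3 := ⟨_, rfl⟩
  have hu1 : 7 * (1 / (2 : ℝ) ^ u) ≤ ε := by
    rw [mul_one_div, div_le_iff₀ (by positivity)]
    rw [div_lt_iff₀ hε] at hu0
    have : (2 : ℝ) ^ u0 ≤ 2 ^ u := pow_le_pow_right₀ (by norm_num) (by omega)
    nlinarith
  have hu2 : 7 * (1 / (2 : ℝ) ^ u) < 1 := by
    rw [mul_one_div, div_lt_one (by positivity)]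
    have : (2 : ℝ) ^ 3 ≤ 2 ^ u := pow_le_pow_right₀ (by norm_num) (by omega)
    linarith
  obtain ⟨d0, hd0⟩ := params u
  refine ⟨d0, fun d hd => ?_⟩
  obtain ⟨lg, κ, nB, n, t, p0, p1, p2, p3, p4, p5, p6, p7, p8⟩ := hd0 d hd
  obtain ⟨m, hm, hS⟩ := assemble u κ (lg + u) (2 * lg + 2) (2 * lg + 2 * u) nB n t d
    (by omega) (by omega) p1 p2 p3 p4 p5 p6 p7
  refine ⟨m, hm, fun i j hij => ?_⟩
  obtain ⟨S, h1, h2⟩ := hS i j hij
  have hfac := real_bound (x := 1 / 2 ^ (lg + u)) (y := 1 / 2 ^ u) (t := t) (by positivity)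
    (by positivity) hu2 (by
      have f1 : ((1 + 2 * t : ℕ) : ℝ) ≤ ((2 * 2 ^ lg : ℕ) : ℝ) := Nat.cast_le.2 p8
      push_cast at f1
      have f2 : (2 : ℝ) * (1 / 2 ^ u) = 2 * 2 ^ lg * (1 / 2 ^ (lg + u)) := by
        rw [pow_add]; field_simp
      rw [f2]
      exact mul_le_mul_of_nonneg_right f1 (by positivity))
  rw [mul_one_div 5, mul_one_div 2] at hfac
  have hpos : (0 : ℝ) < 2 ^ d := by positivity
  have h3 : (1 - 7 * (1 / (2 : ℝ) ^ u)) * 2 ^ d ≤ S.card :=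
    (mul_le_mul_of_nonneg_right hfac hpos.le).trans h1
  refine ⟨S, ?_, le_trans (mul_le_mul_of_nonneg_right (by linarith) hpos.le) h3, h2⟩
  rw [← card_pos]
  have : (0 : ℝ) < S.card := lt_of_lt_of_le (mul_pos (by linarith) hpos) h3
  exact_mod_cast this

end Pool.Agent.Lib.MP_c88ce3_co
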