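import Pool.Agent.Lib.MP_c88ce3_co.Fibre

set_option autoImplicit false
set_option linter.unusedSectionVars false

namespace Pool.Agent.Lib.MP_c88ce3_co

open Finset

section P1

variable {B R L J0 Q : Type} [Fintype B] [DecidableEq B] [Fintype R] [LinearOrder R]
  [Fintype L] [DecidableEq L] (K : Blk L (Fin 3 ⊕ (L × (B ⊕ (R × L))))) (K0 : Blk0 B J0)

open Classical in
/-- Direction towards the origin. -/
noncomputable def dirW (ω : Wt B R L) : B ⊕ (R × L) :=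
  if h : ∃ a, val ω a = true then h.choose else Sum.inl K0.t1

/-- Generic vertices. -/
def Gen (ω : Wt B R L) : Prop := K0.D ω.1 ∧ ∀ q, K.D (ω.2 q)

/-- Index of a link between two neighbouring tori. -/
structure Lk where
  r : R
  l : L
  s : R
  ω : Wt B R L
  hrs : r < s
  gen : Gen K K0 ω
  hr : ω.2 r = zer L
  hs : ω.2 s = zer L
  nz : ∃ a, val ω a = true

variable {K K0}

namespace Lk

variable (ι : Lk K K0)

lemma dir_val : val ι.ω (dirW K0 ι.ω) = true := by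
  unfold dirW; rw [dif_pos ι.nz]; exact ι.nz.choose_spec

lemma out : Out ι.r ι.s (dirW K0 ι.ω) := by
  intro b hb
  have h := ι.dir_val
  rw [hb] at h
  constructor
  · rintro e
    simp only [val] at h
    rw [e, ι.hr] at h
    simp [zer] at h
  · rintro e
    simp only [val] at h
    rw [e, ι.hs] at h
    simp [zer] at h

/-- The parent node. -/
noncomputable def par : Wt B R L := flipW (dirW K0 ι.ω) ι.ω

lemma par_gen : Gen K K0 ι.par := by
  have h := ι.dir_val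
  unfold par
  generalize dirW K0 ι.ω = a at h
  rcases a with t | b
  · exact ⟨K0.down _ _ ι.gen.1 h, ι.gen.2⟩
  · refine ⟨ι.gen.1, fun q => ?_⟩
    by_cases hq : q = b.1
    · subst hq
      simp only [flipW, Function.update_self]
      exact K.down _ _ (ι.gen.2 _) h
    · simp only [flipW, Function.update_of_ne hq]
      exact ι.gen.2 q

lemma par_r : ι.par.2 ι.r = zer L := by
  unfold par; rw [flipW_snd (fun b hb => (ι.out b hb).1), ι.hr]

lemma par_s : ι.par.2 ι.s = zer L := by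
  unfold par; rw [flipW_snd (fun b hb => (ι.out b hb).2), ι.hs]

lemma par_wt : wt ι.par < wt ι.ω := wt_flip ι.dir_val

/-- The special point of the link. -/
noncomputable def u0 : L → Bool := K.pt (Sum.inr (ι.l, dirW K0 ι.ω))

/-- The base vertex of the link. -/
noncomputable def P : Wt B R L := emb ι.r ι.s ι.ω ι.u0 (K.pt (Sum.inl 0))

variable {μ : ZMod 2 → L → (L → Bool) → (L → Bool)} (hμ : DF Adjc parc μ)

/-- The second colour of the link. -/
noncomputable def β : B ⊕ (R × L) :=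
  (Fac.cover' flipW (MM_fac K hμ) ι.P (dirW K0 ι.ω)).choose

lemma β_spec : MM K μ (ι.β hμ) ι.P = flipW (dirW K0 ι.ω) ι.P :=
  (Fac.cover' flipW (MM_fac K hμ) ι.P (dirW K0 ι.ω)).choose_spec

lemma β_out : Out ι.r ι.s (ι.β hμ) := by
  intro b hb
  rcases MM_shape K hμ (ι.β_spec hμ) with ⟨t, h1, _⟩ | ⟨b1, b2, h1, h2, h3⟩
  · rw [hb] at h1; simp at h1
  · rw [hb] at h1
    obtain rfl := Sum.inr_injective h1
    rw [h3]; exact ι.out b2 h2

lemma β_apply {u : L → Bool} (hu : ¬ K.D u) :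
    MM K μ (ι.β hμ) (emb ι.r ι.s ι.ω u (K.pt (Sum.inl 0))) =
      emb ι.r ι.s ι.par u (K.pt (Sum.inl 0)) := by
  unfold par
  rw [← flipW_emb ι.out]
  have hs := ι.β_spec hμ
  rcases MM_shape K hμ hs with ⟨t, h1, h2⟩ | ⟨b1, b2, h1, h2, h3⟩
  · rw [h1, h2]; rfl
  · obtain ⟨o1, o2⟩ := ι.out b2 h2
    rw [h1, h2] at hs ⊢
    have hp : ∀ u', ¬ K.D u' → pp K b1.1 (emb ι.r ι.s ι.ω u' (K.pt (Sum.inl 0))).2 = 0 := by
      intro u' hu'
      refine pp_two K (r := ι.r) (s := ι.s) (h3 ▸ o1.symm) (h3 ▸ o2.symm) ι.hrs.ne ?_ ?_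
      · rw [emb_r ι.hrs.ne]; exact hu'
      · rw [emb_s]; exact K.nd _ _ (Or.inl rfl)
    have h4 := congrFun (congrArg Prod.snd hs) b1.1
    simp only [MM, flipW, P, Function.update_self, hp _ (K.nd _ ι.u0 (Or.inl rfl)), ← h3] at h4
    rw [← h3] at o1 o2
    rw [emb_q o1 o2] at h4
    simp only [MM, flipW, hp u hu, ← h3, emb_q o1 o2, h4]

lemma α_apply {ω' : Wt B R L} (h : Gen K K0 ω') (u : L → Bool) :
    MM K μ (Sum.inr (ι.r, ι.l)) (emb ι.r ι.s ω' u (K.pt (Sum.inl 0))) =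
      emb ι.r ι.s ω' (μ (parc (K.pt (Sum.inl 0))) ι.l u) (K.pt (Sum.inl 0)) := by
  rw [MM_r K ι.hrs.ne, pp_row K ι.hrs (fun q h1 h2 => by rw [emb_q h1 h2]; exact h.2 q)
    (emb_s _ _ _ _ _)]

/-- Shape of the vertices of a link. -/
def Vx (x : Wt B R L) : Prop := ∃ u ω', (u = ι.u0 ∨ Adjc ι.u0 u) ∧ (ω' = ι.ω ∨ ω' = ι.par) ∧
  x = emb ι.r ι.s ω' u (K.pt (Sum.inl 0))

lemma vx {x : Wt B R L} (h : x = ι.P ∨ x = MM K μ (Sum.inr (ι.r, ι.l)) ι.P ∨
    x = MM K μ (ι.β hμ) ι.P ∨ x = MM K μ (Sum.inr (ι.r, ι.l)) (MM K μ (ι.β hμ) ι.P)) :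
    ι.Vx x := by
  have hn : ¬ K.D ι.u0 := K.nd _ _ (Or.inl rfl)
  rcases h with rfl | rfl | rfl | rfl
  · exact ⟨_, _, Or.inl rfl, Or.inl rfl, rfl⟩
  · exact ⟨_, _, Or.inr ((hμ.fac _).adj _ _), Or.inl rfl, ι.α_apply ι.gen _⟩
  · exact ⟨_, _, Or.inl rfl, Or.inr rfl, ι.β_apply hμ hn⟩
  · exact ⟨_, _, Or.inr ((hμ.fac _).adj _ _), Or.inr rfl,
      by rw [P, ι.β_apply hμ hn]; exact ι.α_apply ι.par_gen _⟩

lemma comm : MM K μ (Sum.inr (ι.r, ι.l)) (MM K μ (ι.β hμ) ι.P) =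
    MM K μ (ι.β hμ) (MM K μ (Sum.inr (ι.r, ι.l)) ι.P) := by
  have hn : ¬ K.D ι.u0 := K.nd _ _ (Or.inl rfl)
  rw [P, ι.β_apply hμ hn, ι.α_apply ι.par_gen, ι.α_apply ι.gen,
    ι.β_apply hμ (u := μ (parc (K.pt (Sum.inl 0))) ι.l ι.u0)
      (K.nd _ _ (Or.inr ((hμ.fac _).adj _ _)))]

lemma Vx.facts {ι : Lk K K0} {x : Wt B R L} (h : ι.Vx x) :
    (x.2 ι.r = ι.u0 ∨ Adjc ι.u0 (x.2 ι.r)) ∧ x.2 ι.s = K.pt (Sum.inl 0) ∧
    (∀ q, q ≠ ι.r → q ≠ ι.s → K.D (x.2 q)) ∧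
    (node ι.r ι.s x = ι.ω ∨ node ι.r ι.s x = ι.par) := by
  obtain ⟨u, ω', hu, hω, rfl⟩ := h
  refine ⟨by rwa [emb_r ι.hrs.ne], emb_s _ _ _ _ _, fun q h1 h2 => ?_, ?_⟩
  · rw [emb_q h1 h2]
    rcases hω with rfl | rfl
    · exact ι.gen.2 q
    · exact ι.par_gen.2 q
  · rw [node_emb]
    rcases hω with rfl | rfl
    · exact Or.inl (node_self ι.hr ι.hs)
    · exact Or.inr (node_self ι.par_r ι.par_s)

lemma Vx.nd {ι : Lk K K0} {x : Wt B R L} (h : ι.Vx x) : ¬ K.D (x.2 ι.r) ∧ ¬ K.D (x.2 ι.s) :=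
  ⟨K.nd _ _ h.facts.1, K.nd _ _ (Or.inl h.facts.2.1)⟩

lemma blocks {ι : Lk K K0} {x : Wt B R L} (h : ι.Vx x) {r s : R} (hrs : r < s)
    (hx : ∀ q, q ≠ r → q ≠ s → K.D (x.2 q)) : ι.r = r ∧ ι.s = s := by
  have h1 : ι.r = r ∨ ι.r = s := by
    by_contra hc; push Not at hc; exact h.nd.1 (hx _ hc.1 hc.2)
  have h2 : ι.s = r ∨ ι.s = s := by
    by_contra hc; push Not at hc; exact h.nd.2 (hx _ hc.1 hc.2)
  have h3 := ι.hrs
  rcases h1 with h1 | h1 <;> rcases h2 with h2 | h2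
  · rw [h1, h2] at h3; exact absurd h3 (lt_irrefl _)
  · exact ⟨h1, h2⟩
  · rw [h1, h2] at h3; exact absurd (h3.trans hrs) (lt_irrefl _)
  · rw [h1, h2] at h3; exact absurd h3 (lt_irrefl _)

lemma ext' {ι ι' : Lk K K0} (h1 : ι.r = ι'.r) (h2 : ι.l = ι'.l) (h3 : ι.s = ι'.s)
    (h4 : ι.ω = ι'.ω) : ι = ι' := by
  cases ι; cases ι'; simp_all

lemma disj {ι ι' : Lk K K0} {x : Wt B R L} (h : ι.Vx x) (h' : ι'.Vx x) : ι = ι' := by
  obtain ⟨e1, e2⟩ := blocks h ι'.hrs h'.facts.2.2.1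
  have f1 := h.facts
  have f2 := h'.facts
  rw [← e1, ← e2] at f2
  have e3 := K.inj _ _ _ f1.1 f2.1
  simp only [Sum.inr.injEq, Prod.mk.injEq] at e3
  refine ext' e1 e3.1 e2 ?_
  have w1 := ι.par_wt
  have w2 := ι'.par_wt
  have p1 : ι.ω = flipW (dirW K0 ι.ω) ι.par := (flipW_flipW _ _).symm
  have p2 : ι'.ω = flipW (dirW K0 ι.ω) ι'.par := by rw [e3.2]; exact (flipW_flipW _ _).symm
  rcases f1.2.2.2 with g1 | g1 <;> rcases f2.2.2.2 with g2 | g2
  · rw [← g1, ← g2]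
  · have : ι.ω = ι'.par := by rw [← g1, ← g2]
    have h5 : ι'.ω = ι.par := by rw [p2, ← this]; rfl
    rw [this, ← h5] at w1
    omega
  · have : ι'.ω = ι.par := by rw [← g1, ← g2]
    have h5 : ι.ω = ι'.par := by rw [p1, ← this, e3.2]; rfl
    rw [this, ← h5] at w2
    omega
  · rw [p1, p2, ← g1, ← g2]

end Lk

variable (K K0)

/-- Requests for pendant tori. -/
structure Req (Q R L J0 : Type) where
  a : Q → R × L
  b : Q → R × L
  hab : ∀ q, (a q).1 ≠ (b q).1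
  lam : Q → J0
  inj : Function.Injective lam

variable (T : Req Q R L J0)

/-- A vertex with all blocks at the origin. -/
def top (y : B → Bool) : Wt B R L := (y, fun _ => zer L)

lemma emb_top (r s : R) (y : B → Bool) : emb r s (top y : Wt B R L) (zer L) (zer L) = top y := by
  refine Prod.ext rfl (funext fun q => ?_)
  simp only [emb, top, Function.update_eq_self_iff.2 rfl]

lemma node_top (r s : R) (y : B → Bool) : node r s (top y : Wt B R L) = top y :=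
  node_self rfl rfl

/-- Shape of the vertices of an attaching square. -/
def AtV (q : Q) (x : Wt B R L) : Prop := ∃ u y, K.D u ∧
  (y = K0.pt (T.lam q) ∨ y = flip K0.t1 (K0.pt (T.lam q))) ∧
  x = emb (T.a q).1 (T.b q).1 (top y) u (K.pt (Sum.inl 2))

/-- Shape of the vertices of a redirecting square. -/
def RdV (q : Q) (x : Wt B R L) : Prop := ∃ v y, K.D v ∧
  (y = K0.pt (T.lam q) ∨ y = flip K0.t2 (K0.pt (T.lam q))) ∧
  x = emb (T.a q).1 (T.b q).1 (top y) (zer L) v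

variable {μ : ZMod 2 → L → (L → Bool) → (L → Bool)} (hμ : DF Adjc parc μ)

lemma MM_comm (t : B) (k : R × L) (w : Wt B R L) :
    MM K μ (Sum.inr k) (MM K μ (Sum.inl t) w) = MM K μ (Sum.inl t) (MM K μ (Sum.inr k) w) := rfl

variable {K K0 T}

lemma AtV.facts {q : Q} {x : Wt B R L} (h : AtV K K0 T q x) :
    (x.1 = K0.pt (T.lam q) ∨ x.1 = flip K0.t1 (K0.pt (T.lam q))) ∧ ¬ K.D (x.2 (T.b q).1) ∧
      ∀ r, r ≠ (T.b q).1 → K.D (x.2 r) := by
  obtain ⟨u, y, hu, hy, rfl⟩ := h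
  refine ⟨hy, by rw [emb_s]; exact K.nd _ _ (Or.inl rfl), fun r hr => ?_⟩
  by_cases e : r = (T.a q).1
  · rw [e, emb_r (T.hab q)]; exact hu
  · rw [emb_q e hr]; exact K.zero

lemma RdV.facts {q : Q} {x : Wt B R L} (h : RdV K K0 T q x) :
    (x.1 = K0.pt (T.lam q) ∨ x.1 = flip K0.t2 (K0.pt (T.lam q))) ∧ ∀ r, K.D (x.2 r) := by
  obtain ⟨v, y, hv, hy, rfl⟩ := h
  refine ⟨hy, fun r => ?_⟩
  by_cases e : r = (T.a q).1
  · rw [e, emb_r (T.hab q)]; exact K.zero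
  · by_cases e' : r = (T.b q).1
    · rw [e', emb_s]; exact hv
    · rw [emb_q e e']; exact K.zero

variable (K K0 T)

/-- Base vertices of all squares. -/
noncomputable def sP : Lk K K0 ⊕ Q ⊕ Q → Wt B R L
  | Sum.inl ι => ι.P
  | Sum.inr (Sum.inl q) =>
      emb (T.a q).1 (T.b q).1 (top (K0.pt (T.lam q))) (zer L) (K.pt (Sum.inl 2))
  | Sum.inr (Sum.inr q) =>
      emb (T.a q).1 (T.b q).1 (top (flip K0.t2 (K0.pt (T.lam q)))) (zer L) (zer L)

/-- First colours of all squares. -/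
def sα : Lk K K0 ⊕ Q ⊕ Q → B ⊕ (R × L)
  | Sum.inl ι => Sum.inr (ι.r, ι.l)
  | Sum.inr (Sum.inl q) => Sum.inr (T.a q)
  | Sum.inr (Sum.inr q) => Sum.inr (T.b q)

/-- Second colours of all squares. -/
noncomputable def sβ : Lk K K0 ⊕ Q ⊕ Q → B ⊕ (R × L)
  | Sum.inl ι => ι.β hμ
  | Sum.inr (Sum.inl _) => Sum.inl K0.t1
  | Sum.inr (Sum.inr _) => Sum.inl K0.t2

/-- Shapes of all squares. -/
def sV : Lk K K0 ⊕ Q ⊕ Q → Wt B R L → Prop
  | Sum.inl ι => ι.Vx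
  | Sum.inr (Sum.inl q) => AtV K K0 T q
  | Sum.inr (Sum.inr q) => RdV K K0 T q

lemma sV_of (ι : Lk K K0 ⊕ Q ⊕ Q) (x : Wt B R L) (h : x = sP K K0 T ι ∨
    x = MM K μ (sα K K0 T ι) (sP K K0 T ι) ∨ x = MM K μ (sβ K K0 hμ ι) (sP K K0 T ι) ∨
    x = MM K μ (sα K K0 T ι) (MM K μ (sβ K K0 hμ ι) (sP K K0 T ι))) : sV K K0 T ι x := by
  rcases ι with ι | q | q
  · exact ι.vx hμ h
  · rcases h with rfl | rfl | rfl | rfl
    · exact ⟨_, _, K.zero, Or.inl rfl, rfl⟩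
    · exact ⟨_, _, K.one _ ((hμ.fac _).adj _ _), Or.inl rfl, MM_r K (T.hab q) _ _ _ _⟩
    · exact ⟨_, _, K.zero, Or.inr rfl, rfl⟩
    · exact ⟨_, _, K.one _ ((hμ.fac _).adj _ _), Or.inr rfl,
        MM_r K (T.hab q) _ (top (flip K0.t1 (K0.pt (T.lam q)))) _ _⟩
  · rcases h with rfl | rfl | rfl | rfl
    · exact ⟨_, _, K.zero, Or.inr rfl, rfl⟩
    · exact ⟨_, _, K.one _ ((hμ.fac _).adj _ _), Or.inr rfl, MM_s K _ _ _ _ _ _⟩
    · exact ⟨_, _, K.zero, Or.inl (flip_flip _ _), rfl⟩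
    · exact ⟨_, _, K.one _ ((hμ.fac _).adj _ _), Or.inl (flip_flip _ _),
        MM_s K _ _ _ (top (flip K0.t2 (flip K0.t2 (K0.pt (T.lam q))))) _ _⟩

lemma sV_disj (ι ι' : Lk K K0 ⊕ Q ⊕ Q) (x : Wt B R L) (h : sV K K0 T ι x)
    (h' : sV K K0 T ι' x) : ι = ι' := by
  have la : ∀ (ι : Lk K K0) q, ι.Vx x → AtV K K0 T q x → False := by
    intro ι q h h'
    by_cases e : ι.r = (T.b q).1
    · exact h.nd.2 (h'.facts.2.2 _ (fun e' => ι.hrs.ne (e.trans e'.symm)))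
    · exact h.nd.1 (h'.facts.2.2 _ e)
  have lr : ∀ (ι : Lk K K0) q, ι.Vx x → RdV K K0 T q x → False :=
    fun ι q h h' => h.nd.1 (h'.facts.2 _)
  have ar : ∀ q q', AtV K K0 T q x → RdV K K0 T q' x → False :=
    fun q q' h h' => h.facts.2.1 (h'.facts.2 _)
  rcases ι with ι | q | q <;> rcases ι' with ι' | q' | q'
  · rw [Lk.disj h h']
  · exact (la _ _ h h').elim
  · exact (lr _ _ h h').elim
  · exact (la _ _ h' h).elim
  · have : T.lam q = T.lam q' := K0.inj _ _ x.1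
      (h.facts.1.elim Or.inl (fun e => Or.inr (Or.inl e)))
      (h'.facts.1.elim Or.inl (fun e => Or.inr (Or.inl e)))
    rw [T.inj this]
  · exact (ar _ _ h h').elim
  · exact (lr _ _ h' h).elim
  · exact (ar _ _ h' h).elim
  · have : T.lam q = T.lam q' := K0.inj _ _ x.1
      (h.facts.1.elim Or.inl (fun e => Or.inr (Or.inr e)))
      (h'.facts.1.elim Or.inl (fun e => Or.inr (Or.inr e)))
    rw [T.inj this]

/-- The switching system of a fibre. -/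
noncomputable def sys1 : Sys (MM K μ : _ → Wt B R L → Wt B R L) (Lk K K0 ⊕ Q ⊕ Q) where
  P := sP K K0 T
  α := sα K K0 T
  β := sβ K K0 hμ
  comm := by
    rintro (ι | q | q)
    · exact ι.comm hμ
    · rfl
    · rfl
  disj := fun ι ι' x h h' => sV_disj K K0 T ι ι' x (sV_of K K0 T hμ ι x h) (sV_of K K0 T hμ ι' x h')

/-- The nodes of the merging tree of a pair. -/
def NN (α γ : R × L) (ω : Wt B R L) : Prop := (∀ q, K.D (ω.2 q)) ∧ (K0.D ω.1 ∨
  (∃ q, ((T.a q = α ∧ (T.b q).1 = γ.1) ∨ (T.a q = γ ∧ (T.b q).1 = α.1)) ∧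
    ω = top (K0.pt (T.lam q))) ∨
  (∃ q, ((T.a q = α ∧ T.b q = γ) ∨ (T.a q = γ ∧ T.b q = α)) ∧
    ω = top (flip K0.t2 (K0.pt (T.lam q)))))

lemma NN_comm (α γ : R × L) (ω : Wt B R L) : NN K K0 T α γ ω ↔ NN K K0 T γ α ω := by
  unfold NN
  simp only [or_comm (a := T.a _ = α ∧ _)]

lemma node_at {α γ : R × L} {q : Q}
    (h : (T.a q = α ∧ (T.b q).1 = γ.1) ∨ (T.a q = γ ∧ (T.b q).1 = α.1)) (y : B → Bool)
    (u v : L → Bool) : node α.1 γ.1 (emb (T.a q).1 (T.b q).1 (top y : Wt B R L) u v) = top y := by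
  rcases h with ⟨h1, h2⟩ | ⟨h1, h2⟩
  · rw [h1, h2, node_emb, node_top]
  · rw [h1, h2, node_comm, node_emb, node_top]

lemma wt_top {y : B → Bool} {t : B} (h : y t = true) :
    wt (top (flip t y) : Wt B R L) < wt (top y : Wt B R L) :=
  wt_flip (a := Sum.inl t) (w := top y) h

theorem phase1_pair {α γ : R × L} (hαγ : α.1 < γ.1) :
    (∀ x, NN K K0 T α γ (node α.1 γ.1 x) →
      NN K K0 T α γ (node α.1 γ.1 ((sys1 K K0 T hμ).new (Sum.inr α) x)) ∧
      NN K K0 T α γ (node α.1 γ.1 ((sys1 K K0 T hμ).new (Sum.inr γ) x))) ∧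
    ∀ x y, NN K K0 T α γ (node α.1 γ.1 x) → NN K K0 T α γ (node α.1 γ.1 y) →
      Conn ((sys1 K K0 T hμ).new (Sum.inr α)) ((sys1 K K0 T hμ).new (Sum.inr γ)) x y := by
  have hD : ∀ x, NN K K0 T α γ (node α.1 γ.1 x) → ∀ q, q ≠ α.1 → q ≠ γ.1 → K.D (x.2 q) := by
    intro x hx q h1 h2
    have := hx.1 q
    rwa [node_q h1 h2] at this
  -- description of the active squares
  have actL : ∀ ι : Lk K K0, (sys1 K K0 T hμ).Active (node α.1 γ.1) (NN K K0 T α γ)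
      (Sum.inr α) (Sum.inr γ) (Sum.inl ι) → ι.r = α.1 ∧ ι.s = γ.1 ∧ ι.l = α.2 := by
    rintro ι ⟨⟨x, hx, hN⟩, hc⟩
    obtain ⟨e1, e2⟩ := Lk.blocks (sV_of K K0 T hμ (Sum.inl ι) x hx) hαγ (hD x hN)
    refine ⟨e1, e2, ?_⟩
    rcases hc with hc | hc | hc | hc
    · exact congrArg Prod.snd (Sum.inr_injective hc)
    · exact absurd (e1.symm.trans (congrArg Prod.fst (Sum.inr_injective hc))) hαγ.ne
    · exact absurd e1.symm (ι.β_out hμ α hc).1
    · exact absurd e2.symm (ι.β_out hμ γ hc).2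
  have actA : ∀ q, (sys1 K K0 T hμ).Active (node α.1 γ.1) (NN K K0 T α γ)
      (Sum.inr α) (Sum.inr γ) (Sum.inr (Sum.inl q)) →
      (T.a q = α ∧ (T.b q).1 = γ.1) ∨ (T.a q = γ ∧ (T.b q).1 = α.1) := by
    rintro q ⟨⟨x, hx, hN⟩, hc⟩
    have hf := AtV.facts (sV_of K K0 T hμ (Sum.inr (Sum.inl q)) x hx)
    have hb : (T.b q).1 = α.1 ∨ (T.b q).1 = γ.1 := by
      by_contra hc; push Not at hc; exact hf.2.1 (hD x hN _ hc.1 hc.2)
    have hab := T.hab q
    rcases hc with hc | hc | hc | hc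
    · have e : T.a q = α := Sum.inr_injective hc
      exact Or.inl ⟨e, hb.resolve_left (fun e' => hab (by rw [e, e']))⟩
    · have e : T.a q = γ := Sum.inr_injective hc
      exact Or.inr ⟨e, hb.resolve_right (fun e' => hab (by rw [e, e']))⟩
    · exact absurd hc (by simp [sys1, sβ])
    · exact absurd hc (by simp [sys1, sβ])
  have actR : ∀ q, (sys1 K K0 T hμ).Active (node α.1 γ.1) (NN K K0 T α γ)
      (Sum.inr α) (Sum.inr γ) (Sum.inr (Sum.inr q)) →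
      (T.a q = α ∧ T.b q = γ) ∨ (T.a q = γ ∧ T.b q = α) := by
    rintro q ⟨⟨x, hx, hN⟩, hc⟩
    have hf := RdV.facts (sV_of K K0 T hμ (Sum.inr (Sum.inr q)) x hx)
    have ha : T.a q = α ∨ T.a q = γ := by
      rcases hN.2 with h | ⟨q', h1, h2⟩ | ⟨q', h1, h2⟩
      · exfalso
        rcases hf.1 with e | e
        · exact K0.nd _ (e ▸ h)
        · exact K0.nd2 _ (e ▸ h)
      · have : T.lam q = T.lam q' := K0.inj _ _ x.1
          (hf.1.elim Or.inl (fun e => Or.inr (Or.inr e))) (Or.inl (congrArg Prod.fst h2))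
        rw [T.inj this]
        exact h1.elim (fun h => Or.inl h.1) (fun h => Or.inr h.1)
      · have : T.lam q = T.lam q' := K0.inj _ _ x.1
          (hf.1.elim Or.inl (fun e => Or.inr (Or.inr e)))
          (Or.inr (Or.inr (congrArg Prod.fst h2)))
        rw [T.inj this]
        exact h1.elim (fun h => Or.inl h.1) (fun h => Or.inr h.1)
    have hb : T.b q = α ∨ T.b q = γ := by
      rcases hc with hc | hc | hc | hc
      · exact Or.inl (Sum.inr_injective hc)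
      · exact Or.inr (Sum.inr_injective hc)
      · exact absurd hc (by simp [sys1, sβ])
      · exact absurd hc (by simp [sys1, sβ])
    have hab := T.hab q
    rcases ha with ha | ha <;> rcases hb with hb | hb
    · exact absurd (by rw [ha, hb]) hab
    · exact Or.inl ⟨ha, hb⟩
    · exact Or.inr ⟨ha, hb⟩
    · exact absurd (by rw [ha, hb]) hab
  have weak : ∀ q, (T.a q = α ∧ T.b q = γ) ∨ (T.a q = γ ∧ T.b q = α) →
      (T.a q = α ∧ (T.b q).1 = γ.1) ∨ (T.a q = γ ∧ (T.b q).1 = α.1) := fun q h =>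
    h.elim (fun h => Or.inl ⟨h.1, by rw [h.2]⟩) (fun h => Or.inr ⟨h.1, by rw [h.2]⟩)
  have nodeL : ∀ ι : Lk K K0, ι.r = α.1 → ι.s = γ.1 → node α.1 γ.1 ι.P = ι.ω := by
    intro ι e1 e2
    rw [← e1, ← e2, Lk.P, node_emb, node_self ι.hr ι.hs]
  refine (sys1 K K0 T hμ).tree (MM_fac K hμ) (node α.1 γ.1) (NN K K0 T α γ) wt (top (zer B))
    (fun e => hαγ.ne (congrArg Prod.fst (Sum.inr_injective e))) ?_ ?_ ?_ ?_ ?_
  · intro x _
    exact ⟨MM_node K _ _ _ _, by rw [node_comm, node_comm α.1]; exact MM_node K _ _ _ _⟩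
  · intro x y hx hxy
    exact MM_conn K hμ hαγ α.2 γ.2 x y (hD x hx) hxy
  · rintro (ι | q | q) hact
    · obtain ⟨e1, e2, e3⟩ := actL ι hact
      have n2 : node α.1 γ.1 (MM K μ (ι.β hμ) ι.P) = ι.par := by
        rw [Lk.P, ι.β_apply hμ (u := ι.u0) (K.nd _ _ (Or.inl rfl)), ← e1, ← e2, node_emb,
          node_self ι.par_r ι.par_s]
      refine ⟨Or.inl (by simp [sys1, sα, e1, e3]), fun e => (ι.β_out hμ α e).1 e1.symm,
        fun e => (ι.β_out hμ γ e).2 e2.symm, ?_, ?_, ?_⟩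
      · change NN K K0 T α γ (node α.1 γ.1 ι.P)
        rw [nodeL ι e1 e2]; exact ⟨ι.gen.2, Or.inl ι.gen.1⟩
      · change NN K K0 T α γ (node α.1 γ.1 (MM K μ (ι.β hμ) ι.P))
        rw [n2]; exact ⟨ι.par_gen.2, Or.inl ι.par_gen.1⟩
      · change wt (node α.1 γ.1 (MM K μ (ι.β hμ) ι.P)) < wt (node α.1 γ.1 ι.P)
        rw [n2, nodeL ι e1 e2]; exact ι.par_wt
    · have h := actA q hact
      have n1 : node α.1 γ.1 ((sys1 K K0 T hμ).P (Sum.inr (Sum.inl q))) =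
          top (K0.pt (T.lam q)) := node_at T h _ _ _
      have n2 : node α.1 γ.1 (MM K μ ((sys1 K K0 T hμ).β (Sum.inr (Sum.inl q)))
          ((sys1 K K0 T hμ).P (Sum.inr (Sum.inl q)))) = top (flip K0.t1 (K0.pt (T.lam q))) :=
        node_at T h _ _ _
      rw [n1, n2]
      refine ⟨h.elim (fun h => Or.inl (congrArg Sum.inr h.1))
        (fun h => Or.inr (congrArg Sum.inr h.1)), by simp [sys1, sβ], by simp [sys1, sβ],
        ⟨fun _ => K.zero, Or.inr (Or.inl ⟨q, h, rfl⟩)⟩, ⟨fun _ => K.zero, Or.inl (K0.d1 _)⟩,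
        wt_top (K0.h1 _)⟩
    · have h := actR q hact
      have n1 : node α.1 γ.1 ((sys1 K K0 T hμ).P (Sum.inr (Sum.inr q))) =
          top (flip K0.t2 (K0.pt (T.lam q))) := node_at T (weak q h) _ _ _
      have n2 : node α.1 γ.1 (MM K μ ((sys1 K K0 T hμ).β (Sum.inr (Sum.inr q)))
          ((sys1 K K0 T hμ).P (Sum.inr (Sum.inr q)))) =
          top (flip K0.t2 (flip K0.t2 (K0.pt (T.lam q)))) := node_at T (weak q h) _ _ _
      rw [n1, n2]
      refine ⟨h.elim (fun h => Or.inr (congrArg Sum.inr h.2))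
        (fun h => Or.inl (congrArg Sum.inr h.2)), by simp [sys1, sβ], by simp [sys1, sβ],
        ⟨fun _ => K.zero, Or.inr (Or.inr ⟨q, h, rfl⟩)⟩,
        ⟨fun _ => K.zero, Or.inr (Or.inl ⟨q, weak q h, by rw [flip_flip]⟩)⟩,
        wt_top (by rw [flip_self, K0.h2]; rfl)⟩
  · have cls : ∀ ι, (sys1 K K0 T hμ).Active (node α.1 γ.1) (NN K K0 T α γ)
        (Sum.inr α) (Sum.inr γ) ι →
        (∃ ι', ι = Sum.inl ι' ∧ ι'.r = α.1 ∧ ι'.s = γ.1 ∧ ι'.l = α.2 ∧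
          node α.1 γ.1 ((sys1 K K0 T hμ).P ι) = ι'.ω) ∨
        (∃ q, ι = Sum.inr (Sum.inl q) ∧
          node α.1 γ.1 ((sys1 K K0 T hμ).P ι) = top (K0.pt (T.lam q))) ∨
        (∃ q, ι = Sum.inr (Sum.inr q) ∧
          node α.1 γ.1 ((sys1 K K0 T hμ).P ι) = top (flip K0.t2 (K0.pt (T.lam q)))) := by
      rintro (ι | q | q) hact
      · obtain ⟨e1, e2, e3⟩ := actL ι hact
        exact Or.inl ⟨ι, rfl, e1, e2, e3, nodeL ι e1 e2⟩
      · exact Or.inr (Or.inl ⟨q, rfl, node_at T (actA q hact) _ _ _⟩)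
      · exact Or.inr (Or.inr ⟨q, rfl, node_at T (weak q (actR q hact)) _ _ _⟩)
    intro ι ι' h h' e
    rcases cls ι h with ⟨j, rfl, a1, a2, a3, a4⟩ | ⟨q, rfl, a4⟩ | ⟨q, rfl, a4⟩ <;>
      rcases cls ι' h' with ⟨j', rfl, b1, b2, b3, b4⟩ | ⟨q', rfl, b4⟩ | ⟨q', rfl, b4⟩ <;>
      rw [a4, b4] at e
    · rw [Lk.ext' (a1.trans b1.symm) (a3.trans b3.symm) (a2.trans b2.symm) e]
    · exact absurd (by have := j.gen.1; rwa [e] at this) (K0.nd _)
    · exact absurd (by have := j.gen.1; rwa [e] at this) (K0.nd2 _)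
    · exact absurd (by have := j'.gen.1; rwa [← e] at this) (K0.nd _)
    · rw [T.inj (K0.inj _ _ _ (Or.inl rfl) (Or.inl (congrArg Prod.fst e)))]
    · have e' : K0.pt (T.lam q) = flip K0.t2 (K0.pt (T.lam q')) := congrArg Prod.fst e
      have := K0.inj _ _ _ (Or.inl rfl) (Or.inr (Or.inr e'))
      rw [this] at e'
      exact absurd e'.symm (flip_ne_self _ _)
    · exact absurd (by have := j'.gen.1; rwa [← e] at this) (K0.nd2 _)
    · have e' : K0.pt (T.lam q') = flip K0.t2 (K0.pt (T.lam q)) := (congrArg Prod.fst e).symm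
      have := K0.inj _ _ _ (Or.inl rfl) (Or.inr (Or.inr e'))
      rw [this] at e'
      exact absurd e'.symm (flip_ne_self _ _)
    · rw [T.inj (K0.inj _ _ _ (Or.inr (Or.inr rfl)) (Or.inr (Or.inr (congrArg Prod.fst e))))]
  · intro x hx hρ
    rcases hx.2 with h | ⟨q, h1, h2⟩ | ⟨q, h1, h2⟩
    · have hnz : ∃ a, val (node α.1 γ.1 x) a = true := by
        by_contra hc
        push Not at hc
        apply hρ
        apply val_inj
        funext a
        have h0 : val (top (zer B) : Wt B R L) a = false := by rcases a with t | b <;> rfl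
        rw [h0]
        simpa using hc a
      let ι : Lk K K0 := ⟨α.1, α.2, γ.1, node α.1 γ.1 x, hαγ, ⟨h, hx.1⟩, node_r _ _ _,
        node_s _ _ _, hnz⟩
      have hn : node α.1 γ.1 ι.P = node α.1 γ.1 x := nodeL ι rfl rfl
      exact ⟨Sum.inl ι, ⟨⟨ι.P, Or.inl rfl, hn ▸ hx⟩, Or.inl rfl⟩, hn⟩
    · have hn : node α.1 γ.1 ((sys1 K K0 T hμ).P (Sum.inr (Sum.inl q))) = node α.1 γ.1 x := by
        rw [h2]; exact node_at T h1 _ _ _
      exact ⟨Sum.inr (Sum.inl q), ⟨⟨_, Or.inl rfl, hn ▸ hx⟩,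
        h1.elim (fun h => Or.inl (congrArg Sum.inr h.1))
          (fun h => Or.inr (Or.inl (congrArg Sum.inr h.1)))⟩, hn⟩
    · have hn : node α.1 γ.1 ((sys1 K K0 T hμ).P (Sum.inr (Sum.inr q))) = node α.1 γ.1 x := by
        rw [h2]; exact node_at T (weak q h1) _ _ _
      exact ⟨Sum.inr (Sum.inr q), ⟨⟨_, Or.inl rfl, hn ▸ hx⟩,
        h1.elim (fun h => Or.inr (Or.inl (congrArg Sum.inr h.2)))
          (fun h => Or.inl (congrArg Sum.inr h.2))⟩, hn⟩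

/-- What a fibre provides. -/
structure Fib (m : B ⊕ (R × L) → Wt B R L → Wt B R L) (O : R × L → R × L → Wt B R L → Prop) :
    Prop where
  fac : Fac (fun x y : Wt B R L => ∃ a, y = flipW a x) m
  symm : ∀ α γ x, O α γ x → O γ α x
  closed : ∀ α γ x, α.1 ≠ γ.1 → O α γ x → O α γ (m (Sum.inr α) x)
  conn : ∀ α γ x y, α.1 ≠ γ.1 → O α γ x → O α γ y → Conn (m (Sum.inr α)) (m (Sum.inr γ)) x y
  gen : ∀ α γ x, Gen K K0 x → O α γ x
  red : ∀ q, m (Sum.inr (T.b q)) (top (K0.pt (T.lam q))) = top (flip K0.t2 (K0.pt (T.lam q)))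
  mem : ∀ q, O (T.a q) (T.b q) (top (K0.pt (T.lam q)))
  nmem : ∀ q γ y, γ ≠ T.a q → (y = K0.pt (T.lam q) ∨ y = flip K0.t2 (K0.pt (T.lam q))) →
    ¬ O (T.b q) γ (top y)

include hμ in
theorem phase1 : ∃ m O, Fib K K0 T m O := by
  refine ⟨(sys1 K K0 T hμ).new, fun α γ x => NN K K0 T α γ (node α.1 γ.1 x),
    (sys1 K K0 T hμ).fac (MM_fac K hμ), ?_, ?_, ?_, ?_, ?_, ?_, ?_⟩
  · intro α γ x h
    rwa [NN_comm, node_comm]
  · intro α γ x hne h
    rcases lt_or_gt_of_ne hne with hlt | hlt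
    · exact ((phase1_pair K K0 T hμ hlt).1 x h).1
    · rw [NN_comm, node_comm] at h ⊢
      exact ((phase1_pair K K0 T hμ hlt).1 x h).2
  · intro α γ x y hne hx hy
    rcases lt_or_gt_of_ne hne with hlt | hlt
    · exact (phase1_pair K K0 T hμ hlt).2 x y hx hy
    · rw [NN_comm, node_comm] at hx hy
      exact ((phase1_pair K K0 T hμ hlt).2 x y hx hy).swap
  · intro α γ x hx
    refine ⟨fun q => ?_, Or.inl hx.1⟩
    simp only [node]
    split_ifs
    · exact K.zero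
    · exact hx.2 q
  · intro q
    have hs : (sys1 K K0 T hμ).Sq (Sum.inr (Sum.inr q)) (top (K0.pt (T.lam q))) := by
      refine Or.inr (Or.inr (Or.inl ?_))
      change _ = MM K μ (Sum.inl K0.t2) (emb _ _ _ _ _)
      rw [emb_top]
      simp only [MM, top, flip_flip]
    exact (sys1 K K0 T hμ).new_α hs
  · intro q
    rw [node_top]
    exact ⟨fun _ => K.zero, Or.inr (Or.inl ⟨q, Or.inl ⟨rfl, rfl⟩, rfl⟩)⟩
  · intro q γ y hγ hy h
    rw [node_top] at h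
    have key : ∀ q', (T.a q' = T.b q ∨ T.a q' = γ) → T.lam q = T.lam q' → False := by
      intro q' h1 h2
      rw [← T.inj h2] at h1
      rcases h1 with h1 | h1
      · exact T.hab q (by rw [h1])
      · exact hγ h1.symm
    rcases h.2 with h | ⟨q', h1, h2⟩ | ⟨q', h1, h2⟩
    · rcases hy with e | e
      · exact K0.nd _ (e ▸ h)
      · exact K0.nd2 _ (e ▸ h)
    · exact key q' (h1.elim (fun h => Or.inl h.1) (fun h => Or.inr h.1)) (K0.inj _ _ y
        (hy.elim Or.inl (fun e => Or.inr (Or.inr e))) (Or.inl (congrArg Prod.fst h2)))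
    · exact key q' (h1.elim (fun h => Or.inl h.1) (fun h => Or.inr h.1)) (K0.inj _ _ y
        (hy.elim Or.inl (fun e => Or.inr (Or.inr e))) (Or.inr (Or.inr (congrArg Prod.fst h2))))

end P1

end Pool.Agent.Lib.MP_c88ce3_co
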