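import Pool.Agent.Lib.MP_c88ce3_co.Phase1

set_option autoImplicit false
set_option linter.unusedSectionVars false

namespace Pool.Agent.Lib.MP_c88ce3_co

open Finset

section P2

variable {U B R L C : Type} [Fintype U] [DecidableEq U] [Fintype B] [DecidableEq B] [Fintype R]
  [LinearOrder R] [Fintype L] [DecidableEq L] [LinearOrder C]

/-- Flip one coordinate of a vertex of the whole cube. -/
def flipV : U ⊕ (B ⊕ (R × L)) → (U → Bool) × Wt B R L → (U → Bool) × Wt B R L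
  | Sum.inl κ, x => (flip κ x.1, x.2)
  | Sum.inr a, x => (x.1, flipW a x.2)

/-- A rooted tree of fibres. -/
structure ZTree (U : Type) [DecidableEq U] where
  S : (U → Bool) → Prop
  root : U → Bool
  dir : (U → Bool) → U
  rk : (U → Bool) → ℕ
  step : ∀ z, S z → z ≠ root → S (flip (dir z) z) ∧ rk (flip (dir z) z) < rk z

variable (ρ : (U → Bool) → C ≃ U ⊕ (B ⊕ (R × L)))

/-- Both colours lie in blocks, and in different ones. -/
def Good (z : U → Bool) (i j : C) : Prop := ∃ p : (R × L) × (R × L),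
  ρ z i = Sum.inr (Sum.inr p.1) ∧ ρ z j = Sum.inr (Sum.inr p.2) ∧ p.1.1 ≠ p.2.1

/-- The requests of a fibre. -/
noncomputable def reqZ (z : U → Bool) :
    Req {p : C × C × U // p.1 < p.2.1 ∧ Good ρ z p.1 p.2.1} R L (C × C × U) where
  a q := q.2.2.choose.1
  b q := q.2.2.choose.2
  hab q := q.2.2.choose_spec.2.2
  lam q := q.1
  inj := Subtype.val_injective

variable (m1 : (U → Bool) → B ⊕ (R × L) → Wt B R L → Wt B R L)

/-- The colouring of the whole cube before the cross links. -/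
def M2 (k : C) (x : (U → Bool) × Wt B R L) : (U → Bool) × Wt B R L :=
  Sum.elim (fun κ => (flip κ x.1, x.2)) (fun a => (x.1, m1 x.1 a x.2)) (ρ x.1 k)

lemma M2_inl {k : C} {z : U → Bool} {κ : U} (h : ρ z k = Sum.inl κ) (w : Wt B R L) :
    M2 ρ m1 k (z, w) = (flip κ z, w) := by simp [M2, h]

lemma M2_inr {k : C} {z : U → Bool} {a : B ⊕ (R × L)} (h : ρ z k = Sum.inr a) (w : Wt B R L) :
    M2 ρ m1 k (z, w) = (z, m1 z a w) := by simp [M2, h]

variable {ρ m1}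

lemma M2_fac (hρ : ∀ z κ k, ρ z k = Sum.inl κ → ρ (flip κ z) k = Sum.inl κ)
    (hm : ∀ z, Fac (fun x y : Wt B R L => ∃ a, y = flipW a x) (m1 z)) :
    Fac (fun x y => ∃ a, y = flipV a x) (M2 ρ m1) := by
  refine ⟨?_, ?_, ?_, ?_⟩
  · rintro k ⟨z, w⟩
    rcases h : ρ z k with κ | a
    · rw [M2_inl ρ m1 h, M2_inl ρ m1 (hρ z κ k h), flip_flip]
    · rw [M2_inr ρ m1 h, M2_inr ρ m1 h, (hm z).inv]
  · rintro k ⟨z, w⟩
    rcases h : ρ z k with κ | a
    · exact ⟨Sum.inl κ, M2_inl ρ m1 h w⟩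
    · obtain ⟨a', ha'⟩ := (hm z).adj a w
      exact ⟨Sum.inr a', by rw [M2_inr ρ m1 h, ha']; rfl⟩
  · rintro k ⟨z, w⟩ e
    rcases h : ρ z k with κ | a
    · rw [M2_inl ρ m1 h] at e
      exact flip_ne_self κ z (congrArg Prod.fst e)
    · rw [M2_inr ρ m1 h] at e
      exact (hm z).ne a w (congrArg Prod.snd e)
  · rintro ⟨z, w⟩ k l e
    apply (ρ z).injective
    rcases h : ρ z k with κ | a <;> rcases h' : ρ z l with κ' | a'
    · rw [M2_inl ρ m1 h, M2_inl ρ m1 h'] at e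
      rw [flip_inj (congrArg Prod.fst e)]
    · rw [M2_inl ρ m1 h, M2_inr ρ m1 h'] at e
      exact absurd (congrArg Prod.fst e) (flip_ne_self κ z)
    · rw [M2_inr ρ m1 h, M2_inl ρ m1 h'] at e
      exact absurd (congrArg Prod.fst e).symm (flip_ne_self κ' z)
    · rw [M2_inr ρ m1 h, M2_inr ρ m1 h'] at e
      rw [(hm z).inj w a a' (congrArg Prod.snd e)]

theorem phase2 (K : Blk L (Fin 3 ⊕ (L × (B ⊕ (R × L))))) (K0 : Blk0 B (C × C × U))
    {μ : ZMod 2 → L → (L → Bool) → (L → Bool)} (hμ : DF Adjc parc μ)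
    (hρ : ∀ z κ k, ρ z k = Sum.inl κ → ρ (flip κ z) k = Sum.inl κ)
    (Tr : C → C → ZTree U) (hTr : ∀ i j z, i < j → (Tr i j).S z → Good ρ z i j) :
    ∃ m : C → (U → Bool) × Wt B R L → (U → Bool) × Wt B R L,
      Fac (fun x y => ∃ a, y = flipV a x) m ∧ ∀ i j, i < j → ∀ x y,
        (Tr i j).S x.1 → Gen K K0 x.2 → (Tr i j).S y.1 → Gen K K0 y.2 → Conn (m i) (m j) x y := by
  classical
  choose m1 O hF using fun z => phase1 K K0 (reqZ ρ z) hμ
  have hfac := M2_fac hρ (fun z => (hF z).fac)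
  let I := {p : C × C × (U → Bool) // p.1 < p.2.1 ∧ (Tr p.1 p.2.1).S p.2.2 ∧
    p.2.2 ≠ (Tr p.1 p.2.1).root}
  let κ : I → U := fun ι => (Tr ι.1.1 ι.1.2.1).dir ι.1.2.2
  let y0 : I → B → Bool := fun ι => K0.pt (ι.1.1, ι.1.2.1, κ ι)
  let β : I → C := fun ι => (ρ ι.1.2.2).symm (Sum.inl (κ ι))
  have hβ : ∀ ι : I, ρ ι.1.2.2 (β ι) = Sum.inl (κ ι) := fun ι => Equiv.apply_symm_apply _ _
  have hS : ∀ ι : I, ∀ z, (z = ι.1.2.2 ∨ z = flip (κ ι) ι.1.2.2) → (Tr ι.1.1 ι.1.2.1).S z := by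
    rintro ι z (rfl | rfl)
    · exact ι.2.2.1
    · exact ((Tr _ _).step _ ι.2.2.1 ι.2.2.2).1
  have hred : ∀ ι : I, ∀ z, (z = ι.1.2.2 ∨ z = flip (κ ι) ι.1.2.2) →
      M2 ρ m1 ι.1.2.1 (z, top (y0 ι)) = (z, top (flip K0.t2 (y0 ι))) := by
    intro ι z hz
    have hg := hTr _ _ z ι.2.1 (hS ι z hz)
    rw [M2_inr ρ m1 hg.choose_spec.2.1]
    exact congrArg (Prod.mk z) ((hF z).red ⟨(ι.1.1, ι.1.2.1, κ ι), ι.2.1, hg⟩)
  have hvx : ∀ (ι : I) x, (x = (ι.1.2.2, top (y0 ι)) ∨ x = M2 ρ m1 ι.1.2.1 (ι.1.2.2, top (y0 ι)) ∨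
      x = M2 ρ m1 (β ι) (ι.1.2.2, top (y0 ι)) ∨
      x = M2 ρ m1 ι.1.2.1 (M2 ρ m1 (β ι) (ι.1.2.2, top (y0 ι)))) →
      ∃ z y, (z = ι.1.2.2 ∨ z = flip (κ ι) ι.1.2.2) ∧ (y = y0 ι ∨ y = flip K0.t2 (y0 ι)) ∧
        x = (z, top y) := by
    rintro ι x (rfl | rfl | rfl | rfl)
    · exact ⟨_, _, Or.inl rfl, Or.inl rfl, rfl⟩
    · exact ⟨_, _, Or.inl rfl, Or.inr rfl, hred ι _ (Or.inl rfl)⟩
    · exact ⟨_, _, Or.inr rfl, Or.inl rfl, M2_inl ρ m1 (hβ ι) _⟩
    · exact ⟨_, _, Or.inr rfl, Or.inr rfl, by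
        rw [M2_inl ρ m1 (hβ ι)]; exact hred ι _ (Or.inr rfl)⟩
  let S : Sys (M2 ρ m1) I :=
    { P := fun ι => (ι.1.2.2, top (y0 ι))
      α := fun ι => ι.1.2.1
      β := β
      comm := by
        intro ι
        rw [M2_inl ρ m1 (hβ ι), hred ι _ (Or.inr rfl), hred ι _ (Or.inl rfl),
          M2_inl ρ m1 (hβ ι)]
      disj := by
        intro ι ι' x h h'
        obtain ⟨z, y, hz, hy, rfl⟩ := hvx ι x h
        obtain ⟨z', y', hz', hy', e⟩ := hvx ι' _ h'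
        obtain rfl : z = z' := congrArg Prod.fst e
        obtain rfl : y = y' := congrArg (fun x => x.2.1) e
        have e3 := K0.inj _ _ y (hy.elim Or.inl (fun e => Or.inr (Or.inr e)))
          (hy'.elim Or.inl (fun e => Or.inr (Or.inr e)))
        simp only [Prod.mk.injEq] at e3
        obtain ⟨⟨i, j, z1⟩, h1⟩ := ι
        obtain ⟨⟨i', j', z2⟩, h2⟩ := ι'
        obtain ⟨rfl, rfl, e4⟩ := e3
        have r1 := ((Tr i j).step z1 h1.2.1 h1.2.2).2
        have r2 := ((Tr i j).step z2 h2.2.1 h2.2.2).2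
        change (Tr i j).dir z1 = (Tr i j).dir z2 at e4
        change z = z1 ∨ z = flip ((Tr i j).dir z1) z1 at hz
        change z = z2 ∨ z = flip ((Tr i j).dir z2) z2 at hz'
        have : z1 = z2 := by
          rcases hz with hz | hz <;> rcases hz' with hz' | hz'
          · rw [← hz, ← hz']
          · have e5 : z1 = flip ((Tr i j).dir z2) z2 := by rw [← hz, ← hz']
            have e6 : z2 = flip ((Tr i j).dir z1) z1 := by rw [e4, e5, flip_flip]
            rw [← e5] at r2; rw [← e6] at r1; omega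
          · have e5 : z2 = flip ((Tr i j).dir z1) z1 := by rw [← hz, ← hz']
            have e6 : z1 = flip ((Tr i j).dir z2) z2 := by rw [← e4, e5, flip_flip]
            rw [← e5] at r1; rw [← e6] at r2; omega
          · rw [← flip_flip ((Tr i j).dir z1) z1, ← hz, hz', e4, flip_flip]
        subst this
        rfl }
  refine ⟨S.new, S.fac hfac, fun i j hij => ?_⟩
  let In : (U → Bool) × Wt B R L → Prop := fun x => (Tr i j).S x.1 ∧ ∃ α γ,
    ρ x.1 i = Sum.inr (Sum.inr α) ∧ ρ x.1 j = Sum.inr (Sum.inr γ) ∧ α.1 ≠ γ.1 ∧ O x.1 α γ x.2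
  let nd : (U → Bool) × Wt B R L → Option (U → Bool) := fun x => if In x then some x.1 else none
  have nd_in : ∀ x, In x → nd x = some x.1 := fun x h => if_pos h
  have in_nd : ∀ x, nd x ≠ none → In x := fun x h => by
    by_contra hc; exact h (if_neg hc)
  have in_top : ∀ (ι : I) z, ι.1.1 = i → ι.1.2.1 = j → (z = ι.1.2.2 ∨ z = flip (κ ι) ι.1.2.2) →
      In (z, top (y0 ι)) := by
    intro ι z e1 e2 hz
    have hg := hTr _ _ z ι.2.1 (hS ι z hz)
    refine ⟨e1 ▸ e2 ▸ hS ι z hz, hg.choose.1, hg.choose.2, e1 ▸ hg.choose_spec.1,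
      e2 ▸ hg.choose_spec.2.1, hg.choose_spec.2.2, ?_⟩
    exact (hF z).mem ⟨(ι.1.1, ι.1.2.1, κ ι), ι.2.1, hg⟩
  have act : ∀ ι : I, S.Active nd (fun o => o ≠ none) i j ι →
      ι.1.1 = i ∧ ι.1.2.1 = j ∧ β ι ≠ i ∧ β ι ≠ j := by
    rintro ι ⟨⟨x, hx, hN⟩, hc⟩
    obtain ⟨z, y, hz, hy, rfl⟩ := hvx ι x hx
    obtain ⟨-, α, γ, hα, hγ, -, hO⟩ := in_nd _ hN
    simp only at hα hγ hO
    have hβz : ρ z (β ι) = Sum.inl (κ ι) := by
      rcases hz with rfl | rfl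
      · exact hβ ι
      · exact hρ _ _ _ (hβ ι)
    have b1 : β ι ≠ i := fun e => by rw [e, hα] at hβz; simp at hβz
    have b2 : β ι ≠ j := fun e => by rw [e, hγ] at hβz; simp at hβz
    have hg := hTr _ _ z ι.2.1 (hS ι z hz)
    have hn := (hF z).nmem ⟨(ι.1.1, ι.1.2.1, κ ι), ι.2.1, hg⟩
    have g1 : ρ z ι.1.1 = Sum.inr (Sum.inr hg.choose.1) := hg.choose_spec.1
    have g2 : ρ z ι.1.2.1 = Sum.inr (Sum.inr hg.choose.2) := hg.choose_spec.2.1
    rcases hc with hc | hc | hc | hc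
    · exfalso
      change ι.1.2.1 = i at hc
      have e1 : hg.choose.2 = α := by
        exact Sum.inr_injective (Sum.inr_injective
          (g2.symm.trans ((congrArg (ρ z) hc).trans hα)))
      have e2 : γ = hg.choose.1 := by
        by_contra hne
        exact hn γ y hne hy (by change O z hg.choose.2 γ (top y); rw [e1]; exact hO)
      have e3 : ι.1.1 = j := (ρ z).injective (by rw [g1, hγ, e2])
      have := ι.2.1
      rw [e3, hc] at this
      exact absurd (this.trans hij) (lt_irrefl _)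
    · change ι.1.2.1 = j at hc
      have e1 : hg.choose.2 = γ := by
        exact Sum.inr_injective (Sum.inr_injective
          (g2.symm.trans ((congrArg (ρ z) hc).trans hγ)))
      have e2 : α = hg.choose.1 := by
        by_contra hne
        exact hn α y hne hy (by
          change O z hg.choose.2 α (top y); rw [e1]; exact (hF z).symm _ _ _ hO)
      exact ⟨(ρ z).injective (by rw [g1, hα, e2]), hc, b1, b2⟩
    · exact absurd hc b1
    · exact absurd hc b2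
  have main := S.tree hfac nd (fun o => o ≠ none) (fun o => o.elim 0 (Tr i j).rk)
    (some (Tr i j).root) hij.ne ?_ ?_ ?_ ?_ ?_
  · rintro ⟨z, w⟩ ⟨z', w'⟩ h1 h2 h3 h4
    have key : ∀ z w, (Tr i j).S z → Gen K K0 w → nd (z, w) ≠ none := by
      intro z w h1 h2
      obtain ⟨p, g1, g2, g3⟩ := hTr i j z hij h1
      rw [nd_in _ ⟨h1, p.1, p.2, g1, g2, g3, (hF z).gen _ _ _ h2⟩]
      simp
    exact main.2 _ _ (key z w h1 h2) (key z' w' h3 h4)
  · rintro ⟨z, w⟩ hx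
    have hI := in_nd _ hx
    obtain ⟨h1, α, γ, hα, hγ, hne, hO⟩ := hI
    simp only at h1 hα hγ hO
    rw [M2_inr ρ m1 hα, M2_inr ρ m1 hγ, nd_in (z, w) ⟨h1, α, γ, hα, hγ, hne, hO⟩,
      nd_in (z, _) ⟨h1, α, γ, hα, hγ, hne, (hF z).closed _ _ _ hne hO⟩,
      nd_in (z, _) ⟨h1, α, γ, hα, hγ, hne,
        (hF z).symm _ _ _ ((hF z).closed _ _ _ hne.symm ((hF z).symm _ _ _ hO))⟩]
    exact ⟨rfl, rfl⟩
  · rintro ⟨z, w⟩ ⟨z', w'⟩ hx hxy
    have hI := in_nd _ hx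
    have hI' := in_nd _ (hxy ▸ hx)
    rw [nd_in _ hI, nd_in _ hI'] at hxy
    obtain rfl : z = z' := Option.some_injective _ hxy
    obtain ⟨-, α, γ, hα, hγ, hne, hO⟩ := hI
    obtain ⟨-, α', γ', hα', hγ', -, hO'⟩ := hI'
    simp only at hα hγ hO hα' hγ' hO'
    obtain rfl : α = α' := Sum.inr_injective (Sum.inr_injective (hα.symm.trans hα'))
    obtain rfl : γ = γ' := Sum.inr_injective (Sum.inr_injective (hγ.symm.trans hγ'))
    exact (Conn.sim (f' := M2 ρ m1 i) (g' := M2 ρ m1 j) (fun w => (z, w)) (fun _ => True)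
      (fun _ _ => ⟨trivial, trivial⟩)
      (fun w _ => by rw [← M2_inr ρ m1 hα]; exact Conn.left _ _ _)
      (fun w _ => by rw [← M2_inr ρ m1 hγ]; exact Conn.right _ _ _) trivial
      ((hF z).conn α γ w w' hne hO hO')).2
  · intro ι hact
    obtain ⟨e1, e2, b1, b2⟩ := act ι hact
    have n1 : nd (S.P ι) = some ι.1.2.2 := nd_in _ (in_top ι _ e1 e2 (Or.inl rfl))
    have n2 : nd (M2 ρ m1 (S.β ι) (S.P ι)) = some (flip (κ ι) ι.1.2.2) := by
      change nd (M2 ρ m1 (β ι) (ι.1.2.2, top (y0 ι))) = _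
      rw [M2_inl ρ m1 (hβ ι)]
      exact nd_in _ (in_top ι _ e1 e2 (Or.inr rfl))
    rw [n1, n2]
    refine ⟨Or.inr e2, b1, b2, by simp, by simp, ?_⟩
    have := ((Tr _ _).step _ ι.2.2.1 ι.2.2.2).2
    simp only [Option.elim]
    rw [← e1, ← e2]
    exact this
  · intro ι ι' h h' e
    obtain ⟨e1, e2, -⟩ := act ι h
    obtain ⟨e1', e2', -⟩ := act ι' h'
    rw [show nd (S.P ι) = some ι.1.2.2 from nd_in _ (in_top ι _ e1 e2 (Or.inl rfl)),
      show nd (S.P ι') = some ι'.1.2.2 from nd_in _ (in_top ι' _ e1' e2' (Or.inl rfl))] at e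
    exact Subtype.ext (Prod.ext (e1.trans e1'.symm)
      (Prod.ext (e2.trans e2'.symm) (Option.some_injective _ e)))
  · intro x hx hρ'
    have hI := in_nd _ hx
    rw [nd_in _ hI] at hρ' ⊢
    let ι : I := ⟨(i, j, x.1), hij, hI.1, fun e => hρ' (congrArg some e)⟩
    have n1 : nd (S.P ι) = some x.1 := nd_in _ (in_top ι _ rfl rfl (Or.inl rfl))
    exact ⟨ι, ⟨⟨_, Or.inl rfl, by rw [n1]; simp⟩, Or.inr (Or.inl rfl)⟩, n1⟩

end P2

end Pool.Agent.Lib.MP_c88ce3_co
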