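import Pool.Agent.Lib.MP_c88ce3_co.Phase2

set_option autoImplicit false
set_option linter.unusedSectionVars false

namespace Pool.Agent.Lib.MP_c88ce3_co

open Finset

lemma count_ones {L : Type} [Fintype L] [DecidableEq L] {c : ℕ} (f : Fin c → L)
    (hf : Function.Injective f) :
    ((univ.filter (fun x : L → Bool => ∀ i, x (f i) = true)).card : ℝ) ≤
      2 ^ Fintype.card L / 2 ^ c := by
  classical
  rw [le_div_iff₀ (by positivity)]
  have h1 : ((univ.filter (fun x : L → Bool => ∀ i, x (f i) = true)) ×ˢ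
      (univ : Finset (Fin c → Bool))).card ≤ (univ : Finset (L → Bool)).card := by
    refine card_le_card_of_injOn (fun p => Function.extend f p.2 p.1)
      (fun _ _ => mem_coe.2 (mem_univ _)) ?_
    rintro ⟨x, w⟩ hx ⟨x', w'⟩ hx' h
    simp only [coe_product, Set.mem_prod, mem_coe, mem_filter, mem_univ, true_and,
      and_true] at hx hx'
    refine Prod.ext (funext fun a => ?_) (funext fun i => ?_)
    · by_cases ha : ∃ i, f i = a
      · obtain ⟨i, rfl⟩ := ha
        exact (hx i).trans (hx' i).symm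
      · have := congrFun h a
        simp only [Function.extend_apply' _ _ _ ha] at this
        exact this
    · have := congrFun h (f i)
      simp only [hf.extend_apply] at this
      exact this
  rw [card_product] at h1
  simp only [card_univ, Fintype.card_fun, Fintype.card_bool, Fintype.card_fin] at h1
  exact_mod_cast h1

lemma near_agree {L : Type} [DecidableEq L] {p x : L → Bool} (h : x = p ∨ Adjc p x) :
    (∃ a, ∀ b, b ≠ a → x b = p b) ∨ x = p := by
  rcases h with h | ⟨a, rfl⟩
  · exact Or.inr h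
  · exact Or.inl ⟨a, fun b hb => flip_ne hb p⟩

open Classical in
lemma exists_blk {L J : Type} [Fintype L] [DecidableEq L] [Fintype J] (c k : ℕ) (hc : 2 ≤ c)
    (hL : 2 * c + 3 * k ≤ Fintype.card L) (hJ : Fintype.card J ≤ 2 ^ k) :
    ∃ K : Blk L J, (1 - 2 / 2 ^ c) * (2 : ℝ) ^ Fintype.card L ≤ (univ.filter K.D).card := by
  obtain ⟨e⟩ : Nonempty ((Fin 2 × Fin c) ⊕ (Fin 3 × Fin k) ↪ L) :=
    Function.Embedding.nonempty_of_card_le (by simpa using hL)
  obtain ⟨enc⟩ : Nonempty (J ↪ (Fin k → Bool)) :=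
    Function.Embedding.nonempty_of_card_le (by simpa using hJ)
  let pt : J → L → Bool := fun j =>
    Function.extend e (Sum.elim (fun _ => true) (fun p => enc j p.2)) (fun _ => false)
  have p1 : ∀ j p, pt j (e (Sum.inl p)) = true := fun j p => e.injective.extend_apply _ _ _
  have p2 : ∀ j p, pt j (e (Sum.inr p)) = enc j p.2 := fun j p => e.injective.extend_apply _ _ _
  have i0 : Fin c := ⟨0, by omega⟩
  refine ⟨⟨fun x => ∀ g : Fin 2, ∃ i, x (e (Sum.inl (g, i))) = false, ?_, ?_, ?_, pt, ?_, ?_⟩, ?_⟩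
  · intro x a hx ha g
    obtain ⟨i, hi⟩ := hx g
    refine ⟨i, ?_⟩
    rw [flip_ne, hi]
    rintro rfl
    rw [ha] at hi; simp at hi
  · exact fun g => ⟨i0, rfl⟩
  · rintro x ⟨a, rfl⟩ g
    by_cases h : e (Sum.inl (g, ⟨0, by omega⟩)) = a
    · refine ⟨⟨1, by omega⟩, ?_⟩
      rw [flip_ne]; · rfl
      rw [← h]
      intro h'
      have := e.injective h'
      simp at this
    · exact ⟨⟨0, by omega⟩, by rw [flip_ne h]; rfl⟩
  · intro j x hx hD
    obtain ⟨i, hi⟩ := hD 0
    obtain ⟨i', hi'⟩ := hD 1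
    rcases near_agree hx with ⟨a, ha⟩ | rfl
    · by_cases h : e (Sum.inl (0, i)) = a
      · rw [ha _ (by
          rw [← h]; intro h'; have := e.injective h'; simp at this), p1] at hi'
        simp at hi'
      · rw [ha _ h, p1] at hi; simp at hi
    · rw [p1] at hi; simp at hi
  · intro j j' x hx hx'
    apply enc.injective
    funext i
    have key : ∀ p : L → Bool, (x = p ∨ Adjc p x) → ∃ g0 : Fin 3, ∀ g, g ≠ g0 →
        x (e (Sum.inr (g, i))) = p (e (Sum.inr (g, i))) := by
      intro p hp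
      rcases near_agree hp with ⟨a, ha⟩ | rfl
      · by_cases h : ∃ g0, e (Sum.inr (g0, i)) = a
        · obtain ⟨g0, rfl⟩ := h
          exact ⟨g0, fun g hg => ha _ (fun h' => hg (by simpa using e.injective h'))⟩
        · exact ⟨0, fun g _ => ha _ (fun h' => h ⟨g, h'⟩)⟩
      · exact ⟨0, fun _ _ => rfl⟩
    obtain ⟨g1, h1⟩ := key _ hx
    obtain ⟨g2, h2⟩ := key _ hx'
    obtain ⟨g, hg1, hg2⟩ : ∃ g : Fin 3, g ≠ g1 ∧ g ≠ g2 :=
      (by decide : ∀ g1 g2 : Fin 3, ∃ g : Fin 3, g ≠ g1 ∧ g ≠ g2) g1 g2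
    have := (h1 g hg1).symm.trans (h2 g hg2)
    rwa [p2, p2] at this
  · have hsub : (univ : Finset (L → Bool)) ⊆
        univ.filter (fun x : L → Bool => ∀ g : Fin 2, ∃ i, x (e (Sum.inl (g, i))) = false) ∪
        univ.filter (fun x : L → Bool => ∀ i, x (e (Sum.inl (0, i))) = true) ∪
        univ.filter (fun x : L → Bool => ∀ i, x (e (Sum.inl (1, i))) = true) := by
      intro x _
      simp only [mem_union, mem_filter, mem_univ, true_and]
      by_cases h0 : ∀ i, x (e (Sum.inl (0, i))) = true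
      · exact Or.inl (Or.inr h0)
      · by_cases h1 : ∀ i, x (e (Sum.inl (1, i))) = true
        · exact Or.inr h1
        · left; left
          push Not at h0 h1
          intro g
          fin_cases g
          · obtain ⟨i, hi⟩ := h0; exact ⟨i, by simpa using hi⟩
          · obtain ⟨i, hi⟩ := h1; exact ⟨i, by simpa using hi⟩
    have h1 := (card_le_card hsub).trans ((card_union_le _ _).trans
      (Nat.add_le_add_right (card_union_le _ _) _))
    simp only [card_univ, Fintype.card_fun, Fintype.card_bool] at h1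
    have h2 := count_ones (fun i => e (Sum.inl (0, i)))
      (fun i i' h => by simpa using e.injective h)
    have h3 := count_ones (fun i => e (Sum.inl (1, i)))
      (fun i i' h => by simpa using e.injective h)
    have h4 := (Nat.cast_le (α := ℝ)).2 h1
    push_cast at h4
    have h5 : (1 - 2 / 2 ^ c) * (2 : ℝ) ^ Fintype.card L =
        2 ^ Fintype.card L - 2 ^ Fintype.card L / 2 ^ c - 2 ^ Fintype.card L / 2 ^ c := by ring
    rw [h5]
    convert (by linarith : (2 : ℝ) ^ Fintype.card L - 2 ^ Fintype.card L / 2 ^ c -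
      2 ^ Fintype.card L / 2 ^ c ≤ ((univ.filter (fun x : L → Bool => ∀ g : Fin 2,
        ∃ i, x (e (Sum.inl (g, i))) = false)).card : ℝ))

open Classical in
lemma exists_blk0 {B J : Type} [Fintype B] [DecidableEq B] [Fintype J] (c k : ℕ) (hc : 1 ≤ c)
    (hB : c + (1 + k) ≤ Fintype.card B) (hJ : Fintype.card J ≤ 2 ^ k) :
    ∃ K : Blk0 B J, (1 - 1 / 2 ^ c) * (2 : ℝ) ^ Fintype.card B ≤ (univ.filter K.D).card := by
  obtain ⟨e⟩ : Nonempty (Fin c ⊕ (Unit ⊕ Fin k) ↪ B) :=
    Function.Embedding.nonempty_of_card_le (by simpa using hB)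
  obtain ⟨enc⟩ : Nonempty (J ↪ (Fin k → Bool)) :=
    Function.Embedding.nonempty_of_card_le (by simpa using hJ)
  let pt : J → B → Bool := fun j =>
    Function.extend e (Sum.elim (fun _ => true) (Sum.elim (fun _ => false) (enc j)))
      (fun _ => false)
  have p1 : ∀ j p, pt j (e (Sum.inl p)) = true := fun j p => e.injective.extend_apply _ _ _
  have p2 : ∀ j p, pt j (e (Sum.inr (Sum.inl p))) = false :=
    fun j p => e.injective.extend_apply _ _ _
  have p3 : ∀ j p, pt j (e (Sum.inr (Sum.inr p))) = enc j p :=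
    fun j p => e.injective.extend_apply _ _ _
  have i0 : Fin c := ⟨0, by omega⟩
  refine ⟨⟨fun x => ∃ i, x (e (Sum.inl i)) = false, ?_, ⟨i0, rfl⟩, pt, e (Sum.inl i0),
    e (Sum.inr (Sum.inl ())), fun j => p1 j _, fun j => p2 j _, ?_, ?_, ?_, ?_⟩, ?_⟩
  · rintro x a ⟨i, hi⟩ ha
    refine ⟨i, ?_⟩
    rw [flip_ne, hi]
    rintro rfl
    rw [ha] at hi; simp at hi
  · rintro j ⟨i, hi⟩
    rw [p1] at hi; simp at hi
  · rintro j ⟨i, hi⟩
    rw [flip_ne (fun h => by simpa using e.injective h), p1] at hi; simp at hi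
  · exact fun j => ⟨i0, by rw [flip_self, p1]; rfl⟩
  · intro j j' y hy hy'
    apply enc.injective
    funext i
    have key : ∀ j, (y = pt j ∨ y = flip (e (Sum.inl i0)) (pt j) ∨
        y = flip (e (Sum.inr (Sum.inl ()))) (pt j)) → y (e (Sum.inr (Sum.inr i))) = enc j i := by
      rintro j (rfl | rfl | rfl)
      · exact p3 j i
      · rw [flip_ne (fun h => by simpa using e.injective h), p3]
      · rw [flip_ne (fun h => by simpa using e.injective h), p3]
    exact (key j hy).symm.trans (key j' hy')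
  · have hsub : (univ : Finset (B → Bool)) ⊆
        univ.filter (fun x : B → Bool => ∃ i, x (e (Sum.inl i)) = false) ∪
        univ.filter (fun x : B → Bool => ∀ i, x (e (Sum.inl i)) = true) := by
      intro x _
      simp only [mem_union, mem_filter, mem_univ, true_and]
      by_cases h0 : ∀ i, x (e (Sum.inl i)) = true
      · exact Or.inr h0
      · push Not at h0
        obtain ⟨i, hi⟩ := h0; exact Or.inl ⟨i, by simpa using hi⟩
    have h1 := (card_le_card hsub).trans (card_union_le _ _)
    simp only [card_univ, Fintype.card_fun, Fintype.card_bool] at h1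
    have h2 := count_ones (fun i => e (Sum.inl i)) (fun i i' h => by simpa using e.injective h)
    have h4 := (Nat.cast_le (α := ℝ)).2 h1
    push_cast at h4
    have h5 : (1 - 1 / 2 ^ c) * (2 : ℝ) ^ Fintype.card B =
        2 ^ Fintype.card B - 2 ^ Fintype.card B / 2 ^ c := by ring
    rw [h5]
    convert (by linarith : (2 : ℝ) ^ Fintype.card B - 2 ^ Fintype.card B / 2 ^ c ≤
      ((univ.filter (fun x : B → Bool => ∃ i, x (e (Sum.inl i)) = false)).card : ℝ))

open Classical in
lemma exists_tree {u : ℕ} (hu : 3 ≤ u) (Bad : Finset (Fin u ⊕ Fin u → Bool)) (hB : Bad.card ≤ 5) :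
    ∃ T : ZTree (Fin u ⊕ Fin u), (∀ z, T.S z → z ∉ Bad) ∧
      (1 - 5 / 2 ^ u) * (2 : ℝ) ^ (u + u) ≤ (univ.filter T.S).card := by
  have h8 : 5 < 2 ^ u := lt_of_lt_of_le (by norm_num) (Nat.pow_le_pow_right (by norm_num) hu)
  obtain ⟨r1, -, hr1⟩ := exists_mem_notMem_of_card_lt_card
    (s := Bad.image (fun z => z ∘ Sum.inl)) (t := univ)
    (lt_of_le_of_lt (card_image_le.trans hB) (by simpa using h8))
  let root : Fin u ⊕ Fin u → Bool := Sum.elim r1 (fun _ => false)
  let dir : (Fin u ⊕ Fin u → Bool) → Fin u ⊕ Fin u := fun z =>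
    if h : ∃ κ, z (Sum.inl κ) ≠ r1 κ then Sum.inl h.choose
    else if h' : ∃ κ, z κ ≠ root κ then h'.choose else Sum.inl ⟨0, by omega⟩
  have hlt : ∀ z a, z a ≠ root a → (univ.filter (fun b => flip a z b ≠ root b)).card <
      (univ.filter (fun b => z b ≠ root b)).card := by
    intro z a ha
    refine card_lt_card ⟨fun b hb => ?_, fun hsub => ?_⟩
    · simp only [mem_filter, mem_univ, true_and] at hb ⊢
      by_cases e : b = a
      · rw [e]; exact ha
      · rwa [flip_ne e] at hb
    · have := hsub (mem_filter.2 ⟨mem_univ a, ha⟩)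
      simp only [mem_filter, mem_univ, true_and, flip_self] at this
      revert ha this
      cases z a <;> cases root a <;> simp
  refine ⟨⟨fun z => z ∘ Sum.inr ∉ Bad.image (fun z => z ∘ Sum.inr) ∨ z ∘ Sum.inl = r1, root, dir,
    fun z => (univ.filter (fun b => z b ≠ root b)).card, ?_⟩, ?_, ?_⟩
  · intro z hz hne
    by_cases h : ∃ κ, z (Sum.inl κ) ≠ r1 κ
    · have hd : dir z = Sum.inl h.choose := dif_pos h
      rw [hd]
      refine ⟨Or.inl ?_, hlt z _ h.choose_spec⟩
      have e : flip (Sum.inl h.choose) z ∘ Sum.inr = z ∘ Sum.inr :=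
        funext fun b => flip_ne (by simp) z
      rw [e]
      exact hz.resolve_right (fun e' => h.choose_spec (congrFun e' _))
    · have h' : ∃ κ, z κ ≠ root κ := Function.ne_iff.1 hne
      have hd : dir z = h'.choose := (dif_neg h).trans (dif_pos h')
      rw [hd]
      refine ⟨Or.inr ?_, hlt z _ h'.choose_spec⟩
      push Not at h
      funext b
      have hb : Sum.inl b ≠ h'.choose := fun e => h'.choose_spec (e ▸ h b)
      simp only [Function.comp, flip_ne hb, h b]
  · rintro z (hz | hz) hb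
    · exact hz (mem_image_of_mem _ hb)
    · exact hr1 (hz ▸ mem_image_of_mem _ hb)
  · have h1 : ((univ : Finset (Fin u → Bool)) ×ˢ
        (univ \ Bad.image (fun z => z ∘ Sum.inr))).card ≤ (univ.filter (fun z : Fin u ⊕ Fin u → Bool =>
          z ∘ Sum.inr ∉ Bad.image (fun z => z ∘ Sum.inr) ∨ z ∘ Sum.inl = r1)).card := by
      refine card_le_card_of_injOn (fun p => Sum.elim p.1 p.2) ?_ ?_
      · intro p hp
        simp only [coe_product, Set.mem_prod, mem_coe, mem_sdiff] at hp
        exact mem_coe.2 (mem_filter.2 ⟨mem_univ _, Or.inl hp.2.2⟩)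
      · intro p _ q _ h
        exact Prod.ext (funext fun b => congrFun h (Sum.inl b))
          (funext fun b => congrFun h (Sum.inr b))
    rw [card_product, card_sdiff_of_subset (subset_univ _)] at h1
    simp only [card_univ, Fintype.card_fun, Fintype.card_bool, Fintype.card_fin] at h1
    have h2 : 2 ^ u * (2 ^ u - 5) ≤ 2 ^ u * (2 ^ u - (Bad.image (fun z => z ∘ Sum.inr)).card) :=
      Nat.mul_le_mul_left _ (Nat.sub_le_sub_left (card_image_le.trans hB) _)
    have h3 : ((2 ^ u * (2 ^ u - 5) : ℕ) : ℝ) = (1 - 5 / 2 ^ u) * (2 : ℝ) ^ (u + u) := by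
      rw [Nat.cast_mul, Nat.cast_sub h8.le]
      push_cast
      rw [pow_add]; field_simp
    rw [← h3]
    refine Nat.cast_le.2 ?_
    convert! h2.trans h1

end Pool.Agent.Lib.MP_c88ce3_co
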