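import Pool.Agent.Lib.MP_c88ce3_co.Basic

set_option autoImplicit false

namespace Pool.Agent.Lib.MP_c88ce3_co

open Finset

/-- Two colourings of a bipartite graph whose equally named classes form Hamilton cycles. -/
structure DF {X L : Type} (adj : X → X → Prop) (par : X → ZMod 2)
    (μ : ZMod 2 → L → X → X) : Prop where
  fac : ∀ s, Fac adj (μ s)
  par : ∀ x y, adj x y → par y = par x + 1
  conn : ∀ l x y, Conn (μ 0 l) (μ 1 l) x y

lemma z2_add (a : ZMod 2) : a + 1 + 1 = a := by revert a; decide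

lemma z2a (a c : ZMod 2) : a + c + 1 + c = a + 1 := by revert a c; decide

lemma z2b (a c : ZMod 2) : a + 1 + c + 1 = a + c := by revert a c; decide

lemma z2_cases (a b : ZMod 2) : a = b ∨ a = b + 1 := by revert a b; decide

namespace DF

variable {X L : Type} {adj : X → X → Prop} {par : X → ZMod 2} {μ : ZMod 2 → L → X → X}

lemma par_μ (h : DF adj par μ) (s : ZMod 2) (l : L) (x : X) : par (μ s l x) = par x + 1 :=
  h.par _ _ ((h.fac s).adj l x)

/-- The forward step along a Hamilton cycle. -/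
def fwd (h : DF adj par μ) (c : ZMod 2) (l : L) : Equiv.Perm X where
  toFun u := μ (par u + c) l u
  invFun u := μ (par u + c + 1) l u
  left_inv u := by
    simp only [h.par_μ]
    rw [show par u + 1 + c + 1 = par u + c by rw [add_right_comm (par u) 1 c, z2_add]]
    exact (h.fac _).inv _ _
  right_inv u := by
    simp only [h.par_μ]
    rw [add_right_comm (par u) 1 c]
    exact (h.fac _).inv _ _

lemma fwd_apply (h : DF adj par μ) (c : ZMod 2) (l : L) (u : X) :
    h.fwd c l u = μ (par u + c) l u := rfl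

lemma fwd_inv_apply (h : DF adj par μ) (c : ZMod 2) (l : L) (u : X) :
    (h.fwd c l)⁻¹ u = μ (par u + c + 1) l u := rfl

lemma fwd_same (h : DF adj par μ) (c : ZMod 2) (l : L) (u v : X) :
    (h.fwd c l).SameCycle u v := by
  have key : ∀ s x, (h.fwd c l).SameCycle x (μ s l x) := by
    intro s x
    rcases z2_cases s (par x + c) with rfl | rfl
    · exact ⟨1, by simp [fwd_apply]⟩
    · exact ⟨-1, by simp only [zpow_neg, zpow_one]; rfl⟩
  have := h.conn l u v
  induction this with
  | refl => exact Equiv.Perm.SameCycle.refl _ _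
  | tail _ hs ih =>
    rcases hs with rfl | rfl
    · exact ih.trans (key _ _)
    · exact ih.trans (key _ _)

lemma fwd_ne (h : DF adj par μ) (c : ZMod 2) (l : L) (u : X) : h.fwd c l u ≠ u :=
  (h.fac _).ne _ _

lemma fwd_cycle (h : DF adj par μ) (c : ZMod 2) (l : L) (u : X) : (h.fwd c l).IsCycle :=
  ⟨u, h.fwd_ne c l u, fun y _ => h.fwd_same c l u y⟩

lemma fwd_order [Fintype X] (h : DF adj par μ) (c : ZMod 2) (l : L) (u : X) :
    orderOf (h.fwd c l) = Fintype.card X := by
  classical
  rw [(h.fwd_cycle c l u).orderOf, ← card_univ]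
  congr 1
  ext x
  simp [h.fwd_ne]

lemma par_pow (h : DF adj par μ) (c : ZMod 2) (l : L) (n : ℕ) (u : X) :
    par ((h.fwd c l ^ n) u) = par u + n := by
  induction n with
  | zero => simp
  | succ n ih =>
    rw [pow_succ', Equiv.Perm.mul_apply, fwd_apply, h.par_μ, ih]
    push_cast; ring

theorem torus [Fintype X] [DecidableEq X] (h : DF adj par μ) (l l' : L) (c : ZMod 2) (vs : X)
    (m1 m2 : X × X → X × X)
    (h1 : ∀ u v, m1 (u, v) = (μ (par v + c + if v = vs then 1 else 0) l u, v))
    (h2 : ∀ u v, m2 (u, v) = (u, μ (par u + c) l' v)) (p q : X × X) : Conn m1 m2 p q := by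
  have i1 : ∀ p, m1 (m1 p) = p := by
    rintro ⟨u, v⟩; rw [h1, h1, (h.fac _).inv]
  have i2 : ∀ p, m2 (m2 p) = p := by
    rintro ⟨u, v⟩; rw [h2, h2, (h.fac _).inv]
  have csymm : ∀ {p q}, Conn m1 m2 p q → Conn m1 m2 q p := fun h => h.symm i1 i2
  set f := h.fwd 0 l with hf
  set g := h.fwd 1 l' with hg
  set N := Fintype.card X with hN
  have hfN : f ^ N = 1 := by rw [hN, ← h.fwd_order 0 l vs]; exact pow_orderOf_eq_one _
  have hgo : orderOf g = N := h.fwd_order 1 l' vs
  have hNpos : 0 < N := Fintype.card_pos_iff.2 ⟨vs⟩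
  have stepN : ∀ u v, par u = par v + c → v ≠ vs → Conn m1 m2 (u, v) (f u, g v) := by
    intro u v he hv
    have e1 := Conn.left m1 m2 (u, v)
    rw [h1, if_neg hv, add_zero, ← he] at e1
    have e2 := Conn.right m1 m2 (μ (par u) l u, v)
    rw [h2, h.par_μ, he, z2a] at e2
    rw [hf, hg, fwd_apply, fwd_apply, add_zero]
    rw [he] at e1 ⊢
    exact e1.trans e2
  have stepR : ∀ u, par u = par vs + c → Conn m1 m2 (u, vs) (f⁻¹ u, g vs) := by
    intro u he
    have e1 := Conn.left m1 m2 (u, vs)
    rw [h1, if_pos rfl, ← he] at e1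
    have e2 := Conn.right m1 m2 (μ (par u + 1) l u, vs)
    rw [h2, h.par_μ, he, z2a] at e2
    rw [hf, hg, fwd_inv_apply, fwd_apply, add_zero]
    rw [he] at e1 ⊢
    exact e1.trans e2
  have iter : ∀ n, n < N → ∀ u, par u = par (g vs) + c →
      Conn m1 m2 (u, g vs) ((f ^ n) u, (g ^ n) (g vs)) := by
    intro n
    induction n with
    | zero => intro _ u _; exact Conn.refl _ _ _
    | succ n ih =>
      intro hn u he
      refine (ih (by omega) u he).trans ?_
      rw [pow_succ' f, pow_succ' g, Equiv.Perm.mul_apply, Equiv.Perm.mul_apply]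
      refine stepN _ _ ?_ ?_
      · rw [hf, hg, h.par_pow, h.par_pow, he]; ring
      · intro e
        rw [← Equiv.Perm.mul_apply, ← pow_succ] at e
        have h3 := ((h.fwd_cycle 1 l' vs).pow_eq_one_iff' (h.fwd_ne 1 l' vs)).2 e
        have h4 := orderOf_dvd_of_pow_eq_one h3
        rw [← hg, hgo] at h4
        have := Nat.le_of_dvd (by omega) h4
        omega
  have two : ∀ u, par u = par (g vs) + c → Conn m1 m2 (u, g vs) (f (f u), g vs) := by
    intro u he
    have he2 : par (f (f u)) = par (g vs) + c := by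
      rw [hf, fwd_apply, h.par_μ, fwd_apply, h.par_μ, z2_add, he]
    have e1 := iter (N - 1) (by omega) _ he2
    have e2 : (g ^ (N - 1)) (g vs) = vs := by
      rw [← Equiv.Perm.mul_apply, ← pow_succ, Nat.sub_add_cancel hNpos, ← hgo,
        pow_orderOf_eq_one]; rfl
    have e3 : (f ^ (N - 1)) (f (f u)) = f u := by
      rw [← Equiv.Perm.mul_apply, ← pow_succ, Nat.sub_add_cancel hNpos, hfN]; rfl
    rw [e2, e3] at e1
    have e4 := stepR (f u) (by
      rw [hf, fwd_apply, h.par_μ, he, hg, fwd_apply, h.par_μ, z2b])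
    rw [show f⁻¹ (f u) = u by simp] at e4
    exact csymm (e1.trans e4)
  have evens : ∀ k u, par u = par (g vs) + c → Conn m1 m2 (u, g vs) ((f ^ (2 * k)) u, g vs) := by
    intro k
    induction k with
    | zero => intro u _; exact Conn.refl _ _ _
    | succ k ih =>
      intro u he
      refine (ih u he).trans ?_
      rw [show 2 * (k + 1) = 2 * k + 1 + 1 by ring, pow_succ' f, pow_succ' f,
        Equiv.Perm.mul_apply, Equiv.Perm.mul_apply]
      refine two _ ?_
      rw [hf, h.par_pow, he]
      push_cast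
      rw [show (2 : ZMod 2) = 0 by decide]; ring
  have row : ∀ u u', par u = par (g vs) + c → par u' = par (g vs) + c →
      Conn m1 m2 (u, g vs) (u', g vs) := by
    intro u u' he he'
    obtain ⟨n, hn⟩ := (h.fwd_cycle 0 l vs).exists_pow_eq (h.fwd_ne 0 l u) (h.fwd_ne 0 l u')
    have hp := h.par_pow 0 l n u
    rw [hn, he, he'] at hp
    have hn0 : (n : ZMod 2) = 0 := by simpa using hp
    obtain ⟨k, rfl⟩ := (ZMod.natCast_eq_zero_iff n 2).1 hn0
    rw [← hn]
    exact evens k u he
  obtain ⟨u0, hu0⟩ : ∃ u0, par u0 = par (g vs) + c := by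
    rcases z2_cases (par vs) (par (g vs) + c) with e | e
    · exact ⟨vs, e⟩
    · exact ⟨f vs, by rw [hf, fwd_apply, h.par_μ, e, z2_add]⟩
  have even : ∀ u v, par u = par v + c → Conn m1 m2 (u0, g vs) (u, v) := by
    intro u v he
    obtain ⟨n, hn, hnv⟩ := (h.fwd_same 1 l' (g vs) v).exists_pow_eq'
    rw [← hg] at hn hnv
    rw [hgo] at hn
    have hp : par ((f ^ n)⁻¹ u) = par (g vs) + c := by
      have e1 := h.par_pow 0 l n ((f ^ n)⁻¹ u)
      rw [← hf, show (f ^ n) ((f ^ n)⁻¹ u) = u by simp] at e1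
      have e2 := h.par_pow 1 l' n (g vs)
      rw [← hg, hnv] at e2
      rw [e2, e1] at he
      linear_combination he
    have e := iter n hn _ hp
    rw [show (f ^ n) ((f ^ n)⁻¹ u) = u by simp, hnv] at e
    exact (row _ _ hu0 hp).trans e
  have all : ∀ p, Conn m1 m2 (u0, g vs) p := by
    rintro ⟨u, v⟩
    rcases z2_cases (par u) (par v + c) with e | e
    · exact even u v e
    · have e1 := Conn.left m1 m2 (u, v)
      rw [h1] at e1
      refine (even _ v ?_).trans (csymm e1)
      rw [h.par_μ, e, z2_add]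
  exact (csymm (all p)).trans (all q)

end DF

/-- Flip one coordinate. -/
def flip {ι : Type} [DecidableEq ι] (a : ι) (x : ι → Bool) : ι → Bool :=
  Function.update x a (!x a)

/-- Adjacency in the cube. -/
def Adjc {ι : Type} [DecidableEq ι] (x y : ι → Bool) : Prop := ∃ a, y = flip a x

/-- Parity of the weight. -/
def parc {ι : Type} [Fintype ι] (x : ι → Bool) : ZMod 2 := ∑ a, if x a then 1 else 0

section cube
variable {ι : Type} [DecidableEq ι]

lemma flip_self (a : ι) (x : ι → Bool) : flip a x a = !x a := by simp [flip]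

lemma flip_ne {a b : ι} (h : b ≠ a) (x : ι → Bool) : flip a x b = x b := by simp [flip, h]

lemma flip_apply (a b : ι) (x : ι → Bool) : flip a x b = if b = a then !x a else x b := by
  by_cases h : b = a
  · subst h; rw [flip_self, if_pos rfl]
  · rw [flip_ne h, if_neg h]

lemma flip_flip (a : ι) (x : ι → Bool) : flip a (flip a x) = x := by
  funext b
  by_cases h : b = a
  · subst h; simp [flip_self]
  · simp [flip_ne h]

lemma flip_comm (a b : ι) (x : ι → Bool) : flip a (flip b x) = flip b (flip a x) := by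
  funext c
  by_cases hab : a = b
  · subst hab; rfl
  · simp only [flip_apply]
    by_cases h1 : c = a <;> by_cases h2 : c = b <;> simp_all [eq_comm]

lemma flip_ne_self (a : ι) (x : ι → Bool) : flip a x ≠ x := by
  intro h
  have := congrFun h a
  rw [flip_self] at this
  simp at this

lemma flip_inj {a b : ι} {x : ι → Bool} (h : flip a x = flip b x) : a = b := by
  by_contra hne
  have := congrFun h a
  rw [flip_self, flip_ne hne] at this
  simp at this

lemma parc_flip [Fintype ι] (a : ι) (x : ι → Bool) : parc (flip a x) = parc x + 1 := by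
  unfold parc
  rw [← Finset.add_sum_erase _ _ (mem_univ a), ← Finset.add_sum_erase _ _ (mem_univ a),
    flip_self]
  have : ∑ b ∈ univ.erase a, (if flip a x b then (1 : ZMod 2) else 0) =
      ∑ b ∈ univ.erase a, (if x b then (1 : ZMod 2) else 0) :=
    sum_congr rfl (fun b hb => by rw [flip_ne (mem_erase.1 hb).1])
  rw [this]
  generalize ∑ b ∈ univ.erase a, (if x b then (1 : ZMod 2) else 0) = t
  cases x a
  · simp; ring
  · simp; revert t; decide

lemma Fac.cover [Fintype ι] {m : ι → (ι → Bool) → (ι → Bool)} (h : Fac Adjc m) (x : ι → Bool)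
    (a : ι) : ∃ k, m k x = flip a x := by
  choose d hd using fun k => h.adj k x
  have hi : Function.Injective d := fun k l e => h.inj x k l (by rw [hd k, hd l, e])
  obtain ⟨k, rfl⟩ := Finite.injective_iff_surjective.1 hi a
  exact ⟨k, hd k⟩

end cube

/-- Transport of a double colouring. -/
lemma DF.transport {X L X' L' : Type} {adj : X → X → Prop} {par : X → ZMod 2}
    {μ : ZMod 2 → L → X → X} (h : DF adj par μ) {adj' : X' → X' → Prop} {par' : X' → ZMod 2}
    (e : X ≃ X') (ε : L ≃ L') (ha : ∀ x y, adj x y → adj' (e x) (e y))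
    (hp : ∀ x y, adj' x y → par' y = par' x + 1) :
    DF adj' par' (fun s l x => e (μ s (ε.symm l) (e.symm x))) := by
  refine ⟨fun s => ⟨fun k x => by simp [(h.fac s).inv], fun k x => ?_, fun k x hx => ?_,
    fun x k l hkl => ?_⟩, hp, fun l x y => ?_⟩
  · have := ha _ _ ((h.fac s).adj (ε.symm k) (e.symm x))
    rwa [e.apply_symm_apply] at this
  · exact (h.fac s).ne (ε.symm k) (e.symm x) (e.injective (by rw [hx]; simp))
  · exact ε.symm.injective ((h.fac s).inj _ _ _ (e.injective hkl))
  · have := (Conn.sim (f' := fun x => e (μ 0 (ε.symm l) (e.symm x)))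
      (g' := fun x => e (μ 1 (ε.symm l) (e.symm x))) e (fun _ => True) (fun _ _ => ⟨trivial, trivial⟩)
      (fun x _ => by
        have := Conn.left (fun x => e (μ 0 (ε.symm l) (e.symm x)))
          (fun x => e (μ 1 (ε.symm l) (e.symm x))) (e x)
        simpa using this)
      (fun x _ => by
        have := Conn.right (fun x => e (μ 0 (ε.symm l) (e.symm x)))
          (fun x => e (μ 1 (ε.symm l) (e.symm x))) (e x)
        simpa using this) trivial (h.conn (ε.symm l) (e.symm x) (e.symm y))).2
    simpa using this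

/-- Doubling. -/
lemma DF.double {X L : Type} [Fintype X] [DecidableEq X] {adj : X → X → Prop}
    {par : X → ZMod 2} {μ : ZMod 2 → L → X → X} (h : DF adj par μ) (vs : X) :
    ∃ μ' : ZMod 2 → L ⊕ L → X × X → X × X,
      DF (fun p q => (adj p.1 q.1 ∧ q.2 = p.2) ∨ (q.1 = p.1 ∧ adj p.2 q.2))
        (fun p => par p.1 + par p.2) μ' := by
  set m : L ⊕ L → X × X → X × X := fun k p => Sum.elim
    (fun l => (μ (par p.2 + 0 + if p.2 = vs then 1 else 0) l p.1, p.2))
    (fun l => (p.1, μ (par p.1 + 0) l p.2)) k with hm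
  have hf : Fac (fun p q : X × X => (adj p.1 q.1 ∧ q.2 = p.2) ∨ (q.1 = p.1 ∧ adj p.2 q.2)) m := by
    refine ⟨?_, ?_, ?_, ?_⟩
    · rintro (l | l) ⟨u, v⟩ <;> simp [hm, (h.fac _).inv]
    · rintro (l | l) ⟨u, v⟩
      · exact Or.inl ⟨(h.fac _).adj _ _, rfl⟩
      · exact Or.inr ⟨rfl, (h.fac _).adj _ _⟩
    · rintro (l | l) ⟨u, v⟩ <;> simp [hm, (h.fac _).ne]
    · rintro ⟨u, v⟩ (l | l) (l' | l') e
      · simp only [hm, Sum.elim_inl, Prod.mk.injEq, and_true] at e
        rw [(h.fac _).inj _ _ _ e]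
      · simp only [hm, Sum.elim_inl, Sum.elim_inr, Prod.mk.injEq] at e
        exact absurd e.1 ((h.fac _).ne _ _)
      · simp only [hm, Sum.elim_inl, Sum.elim_inr, Prod.mk.injEq] at e
        exact absurd e.2 ((h.fac _).ne _ _)
      · simp only [hm, Sum.elim_inr, Prod.mk.injEq, true_and] at e
        rw [(h.fac _).inj _ _ _ e]
  have ht : ∀ l p q, Conn (m (Sum.inl l)) (m (Sum.inr l)) p q := fun l p q =>
    h.torus l l 0 vs _ _ (fun _ _ => rfl) (fun _ _ => rfl) p q
  refine ⟨fun s k => if s = 0 then m k else m k.swap, fun s => ?_, ?_, ?_⟩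
  · by_cases hs : s = 0
    · simp only [if_pos hs]; exact hf
    · simp only [if_neg hs]
      exact ⟨fun k => hf.inv _, fun k => hf.adj _, fun k => hf.ne _,
        fun x k l e => Sum.swap_leftInverse.injective (hf.inj x _ _ e)⟩
  · rintro ⟨u, v⟩ ⟨u', v'⟩ (⟨h1, h2⟩ | ⟨h1, h2⟩)
    · simp only at h1 h2 ⊢
      rw [h.par _ _ h1, h2]; ring
    · simp only at h1 h2 ⊢
      rw [h.par _ _ h2, h1]; ring
  · rintro (l | l) p q
    · simp only [if_true, one_ne_zero, if_false, Sum.swap_inl]
      exact ht l p q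
    · simp only [if_true, one_ne_zero, if_false, Sum.swap_inr]
      exact (ht l p q).swap

/-- Cubes of dimension a power of two have a double colouring. -/
theorem exists_DF (k : ℕ) : ∃ μ : ZMod 2 → Fin (2 ^ k) → (Fin (2 ^ k) → Bool) →
    (Fin (2 ^ k) → Bool), DF Adjc parc μ := by
  have hp : ∀ (n : ℕ) (x y : Fin n → Bool), Adjc x y → parc y = parc x + 1 := by
    rintro n x _ ⟨a, rfl⟩; exact parc_flip a x
  induction k with
  | zero =>
    refine ⟨fun _ a x => flip a x, fun _ => ⟨flip_flip, fun a x => ⟨a, rfl⟩, flip_ne_self,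
      fun x a b e => flip_inj e⟩, hp _, fun l x y => ?_⟩
    by_cases hxy : x l = y l
    · have : x = y := funext (fun a => by rw [Subsingleton.elim (α := Fin 1) a l]; exact hxy)
      rw [this]; exact Conn.refl _ _ _
    · have : y = flip l x := funext (fun a => by
        rw [Subsingleton.elim (α := Fin 1) a l, flip_self]
        revert hxy; cases x l <;> cases y l <;> simp)
      rw [this]; exact Conn.left _ _ _
  | succ k ih =>
    obtain ⟨μ, hμ⟩ := ih
    obtain ⟨μ', hμ'⟩ := hμ.double (fun _ => false)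
    have ε : Fin (2 ^ k) ⊕ Fin (2 ^ k) ≃ Fin (2 ^ (k + 1)) :=
      Fintype.equivOfCardEq (by simp; ring)
    refine ⟨_, hμ'.transport (adj' := Adjc) (par' := parc)
      ((Equiv.sumArrowEquivProdArrow _ _ Bool).symm.trans (ε.arrowCongr (Equiv.refl Bool))) ε
      ?_ (hp _)⟩
    rintro ⟨u, v⟩ ⟨u', v'⟩ (⟨⟨a, h1⟩, h2⟩ | ⟨h1, ⟨a, h2⟩⟩)
    · simp only at h1 h2
      subst h1 h2
      refine ⟨ε (Sum.inl a), funext (fun b => ?_)⟩
      obtain ⟨b, rfl⟩ := ε.surjective b
      rcases b with b | b <;> simp [flip_apply, Equiv.sumArrowEquivProdArrow]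
    · simp only at h1 h2
      subst h1 h2
      refine ⟨ε (Sum.inr a), funext (fun b => ?_)⟩
      obtain ⟨b, rfl⟩ := ε.surjective b
      rcases b with b | b <;> simp [flip_apply, Equiv.sumArrowEquivProdArrow]

end Pool.Agent.Lib.MP_c88ce3_co
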